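import Pool.Agent.TH187.SA.Flats

set_option autoImplicit false
set_option linter.unusedSectionVars false
set_option linter.unusedVariables false

/-! # The irreducible flats of the multiples of a hyperplane arrangement are Rees flats -/

namespace Pool.Agent.TH187.SA

variable {ι S : Type} [Fintype ι] [DecidableEq ι]

/-- The `m` linear forms on `(ℂ ^ m) ^ ι = ℂ ^ ι ⊗ ℂ ^ m` given by the linear form with the
coefficients `a` on `ℂ ^ ι`: the `k`-th one is `x ↦ ∑ i, a i * x (i, k)`. -/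
def copies (m : ℕ) (a : ι → ℂ) (k : Fin m) : ι × Fin m → ℂ :=
  fun p => if p.2 = k then a p.1 else 0

/-- The subspace `X ⊗ ℂ ^ m` of `ℂ ^ ι ⊗ ℂ ^ m`. -/
def power (m : ℕ) (X : Submodule ℂ (ι → ℂ)) : Submodule ℂ (ι × Fin m → ℂ) where
  carrier := {x | ∀ k, (fun i => x (i, k)) ∈ X}
  add_mem' := by
    intro x y hx hy k
    exact X.add_mem (hx k) (hy k)
  zero_mem' := fun _ => X.zero_mem
  smul_mem' := by
    intro r x hx k
    exact X.smul_mem r (hx k)

/-- `X` is an irreducible flat of the arrangement of the hyperplanes `α s = 0`, `s ∈ A`: it is not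
the whole space, it is the intersection of the hyperplanes which contain it, and the forms `α s`
which vanish on it are not distributed over two subspaces of the dual space with intersection `0`,
unless all of them are contained in one of the two. -/
def IsIrreducibleFlat (α : S → ι → ℂ) (A : S → Prop) (X : Submodule ℂ (ι → ℂ)) : Prop :=
  X ≠ ⊤ ∧
  (∀ w : ι → ℂ, (∀ s, A s → (∀ x ∈ X, α s ⬝ᵥ x = 0) → α s ⬝ᵥ w = 0) → w ∈ X) ∧
  ∀ P Q : Submodule ℂ (ι → ℂ), Disjoint P Q →
    (∀ s, A s → (∀ x ∈ X, α s ⬝ᵥ x = 0) → α s ∈ P ∨ α s ∈ Q) →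
    (∀ s, A s → (∀ x ∈ X, α s ⬝ᵥ x = 0) → α s ∈ P) ∨
    (∀ s, A s → (∀ x ∈ X, α s ⬝ᵥ x = 0) → α s ∈ Q)

/-- The hyperplane of the linear form with the coefficients `a`. -/
def hyp (a : ι → ℂ) : Submodule ℂ (ι → ℂ) where
  carrier := {x | a ⬝ᵥ x = 0}
  add_mem' := by
    intro x y hx hy
    change a ⬝ᵥ (x + y) = 0
    rw [dotProduct_add, show a ⬝ᵥ x = 0 from hx, show a ⬝ᵥ y = 0 from hy, add_zero]
  zero_mem' := dotProduct_zero _
  smul_mem' := by
    intro r x hx
    change a ⬝ᵥ (r • x) = 0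
    rw [dotProduct_smul, show a ⬝ᵥ x = 0 from hx, smul_zero]

/-- The subspaces which are obtained from a hyperplane `α s = 0`, `s ∈ A`, by steps of the following
kind: `X` is replaced by its intersection with a hyperplane `α s = 0`, which does not contain `X`,
if this is also the intersection of `X` with another hyperplane `α s' = 0`, `s, s' ∈ A`. -/
inductive IsConstructible (α : S → ι → ℂ) (A : S → Prop) : Submodule ℂ (ι → ℂ) → Prop
  | one (s : S) (hs : A s) : IsConstructible α A (hyp (α s))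
  | add (X : Submodule ℂ (ι → ℂ)) (s s' : S) (hX : IsConstructible α A X) (hs : A s) (hs' : A s')
      (hne : hyp (α s) ≠ hyp (α s')) (heq : X ⊓ hyp (α s) = X ⊓ hyp (α s'))
      (hX' : X ⊓ hyp (α s) ≠ X) : IsConstructible α A (X ⊓ hyp (α s))

theorem copies_dot (m : ℕ) (a : ι → ℂ) (k : Fin m) (x : ι × Fin m → ℂ) :
    copies m a k ⬝ᵥ x = a ⬝ᵥ fun i => x (i, k) := by
  rw [dotProduct, dotProduct, Fintype.sum_prod_type]
  refine Finset.sum_congr rfl fun i _ => ?_
  rw [Finset.sum_eq_single k]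
  · simp [copies]
  · intro b _ hb
    simp [copies, hb]
  · intro h
    exact absurd (Finset.mem_univ k) h

theorem mem_zeros_copies (m : ℕ) (a : ι → ℂ) (x : ι × Fin m → ℂ) :
    x ∈ zeros (copies m a) ↔ ∀ k, a ⬝ᵥ (fun i => x (i, k)) = 0 := by
  rw [mem_zeros]
  exact forall_congr' fun k => by rw [copies_dot]

theorem power_le_copies (m : ℕ) (hm : 0 < m) (a : ι → ℂ) (X : Submodule ℂ (ι → ℂ)) :
    power m X ≤ zeros (copies m a) ↔ ∀ x ∈ X, a ⬝ᵥ x = 0 := by
  constructor
  · intro h x hx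
    have h1 : (fun p : ι × Fin m => x p.1) ∈ power m X := fun _ => hx
    exact (mem_zeros_copies m a _).1 (h h1) ⟨0, hm⟩
  · intro h x hx
    rw [mem_zeros_copies]
    exact fun k => h _ (hx k)

/-- the linear map `a ↦ (a ⬝ᵥ x_k)_k` -/
noncomputable def dots (m : ℕ) (x : ι × Fin m → ℂ) : (ι → ℂ) →ₗ[ℂ] (Fin m → ℂ) where
  toFun a k := a ⬝ᵥ fun i => x (i, k)
  map_add' a b := by
    funext k
    exact add_dotProduct _ _ _
  map_smul' r a := by
    funext k
    exact smul_dotProduct _ _ _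

/-- the linear form `x ↦ a ⬝ᵥ x` -/
noncomputable def dotL (a : ι → ℂ) : (ι → ℂ) →ₗ[ℂ] ℂ where
  toFun x := a ⬝ᵥ x
  map_add' x y := dotProduct_add _ _ _
  map_smul' r x := dotProduct_smul _ _ _

theorem finrank_ann (X : Submodule ℂ (ι → ℂ)) (M : Submodule ℂ (ι → ℂ))
    (h : ∀ a ∈ M, ∀ x ∈ X, a ⬝ᵥ x = 0) :
    Module.finrank ℂ M + Module.finrank ℂ X ≤ Fintype.card ι := by
  have hk : ∀ a : M, X ≤ LinearMap.ker (dotL a.1) := by
    intro a x hx
    rw [LinearMap.mem_ker]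
    exact h a.1 a.2 x hx
  let D : M →ₗ[ℂ] Module.Dual ℂ ((ι → ℂ) ⧸ X) :=
    { toFun := fun a => X.liftQ (dotL a.1) (hk a)
      map_add' := by
        intro a b
        refine LinearMap.ext fun q => ?_
        obtain ⟨x, rfl⟩ := X.mkQ_surjective q
        exact add_dotProduct a.1 b.1 x
      map_smul' := by
        intro r a
        refine LinearMap.ext fun q => ?_
        obtain ⟨x, rfl⟩ := X.mkQ_surjective q
        exact smul_dotProduct r a.1 x }
  have hinj : Function.Injective D := by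
    rw [← LinearMap.ker_eq_bot, LinearMap.ker_eq_bot']
    intro a ha
    apply Subtype.ext
    funext i
    have h1 : D a (X.mkQ (Pi.single i 1)) = 0 := by
      rw [ha]
      rfl
    have h2 : a.1 ⬝ᵥ Pi.single i (1 : ℂ) = 0 := h1
    rw [dotProduct_single, mul_one] at h2
    exact h2
  have h1 := LinearMap.finrank_le_finrank_of_injective hinj
  rw [Subspace.dual_finrank_eq] at h1
  have h2 := X.finrank_quotient_add_finrank
  rw [Module.finrank_fintype_fun_eq_card] at h2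
  omega

theorem exists_injOn (M : Submodule ℂ (ι → ℂ)) (m : ℕ) (h : Module.finrank ℂ M ≤ m) :
    ∃ g : (ι → ℂ) →ₗ[ℂ] (Fin m → ℂ), ∀ a ∈ M, g a = 0 → a = 0 := by
  let b := Module.finBasis ℂ M
  let f : M →ₗ[ℂ] (Fin m → ℂ) :=
    { toFun := fun x k => if h : (k : ℕ) < Module.finrank ℂ M then b.repr x ⟨k, h⟩ else 0
      map_add' := by
        intro x y
        funext k
        simp only [Pi.add_apply]
        split_ifs with h1
        · rw [map_add, Finsupp.add_apply]
        · rw [add_zero]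
      map_smul' := by
        intro r x
        funext k
        simp only [Pi.smul_apply, RingHom.id_apply]
        split_ifs with h1
        · rw [map_smul, Finsupp.smul_apply]
        · rw [smul_zero] }
  obtain ⟨g, hg⟩ := LinearMap.exists_extend f
  refine ⟨g, fun a ha h0 => ?_⟩
  have h1 : f ⟨a, ha⟩ = 0 := by
    rw [← hg]
    exact h0
  have h2 : (⟨a, ha⟩ : M) = 0 := by
    apply b.ext_elem
    intro i
    have h3 := congrFun h1 ⟨i.1, lt_of_lt_of_le i.2 h⟩
    have h4 : f ⟨a, ha⟩ ⟨i.1, lt_of_lt_of_le i.2 h⟩ = b.repr ⟨a, ha⟩ i := by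
      show (if h : i.1 < Module.finrank ℂ M then b.repr ⟨a, ha⟩ ⟨i.1, h⟩ else 0) = _
      rw [dif_pos i.2]
    rw [h4] at h3
    rw [h3, map_zero]
    rfl
  exact congrArg Subtype.val h2

theorem dots_of (m : ℕ) (g : (ι → ℂ) →ₗ[ℂ] (Fin m → ℂ)) (a : ι → ℂ) :
    dots m (fun p : ι × Fin m => g (Pi.single p.1 1) p.2) a = g a := by
  funext k
  rw [g.pi_apply_eq_sum_univ a]
  show a ⬝ᵥ (fun i => g (Pi.single i 1) k) = _
  rw [dotProduct, Finset.sum_apply]
  refine Finset.sum_congr rfl fun i _ => ?_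
  have h1 : (Pi.single i 1 : ι → ℂ) = fun j => if i = j then 1 else 0 := by
    funext j
    simp [Pi.single_apply, eq_comm]
  rw [Pi.smul_apply, smul_eq_mul, h1]

/-- **The irreducible flats of the `m`-fold multiples of a hyperplane arrangement are Rees flats.**
Let `X` be an irreducible flat of the hyperplanes `α s = 0`, of codimension at most `m`. Then
`X ⊗ ℂ ^ m` is a Rees flat of the subspaces `(α s = 0) ⊗ ℂ ^ m`. -/
theorem isReesFlat_power (m : ℕ) (α : S → ι → ℂ) (A : S → Prop) (X : Submodule ℂ (ι → ℂ))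
    (h0 : ∀ s, A s → α s ≠ 0) (hX : IsIrreducibleFlat α A X)
    (hm : Fintype.card ι ≤ m + Module.finrank ℂ X) :
    IsReesFlat (fun s => zeros (copies m (α s))) A (power m X) := by
  obtain ⟨hne, hflat, hirr⟩ := hX
  have hlt : Module.finrank ℂ X < Fintype.card ι := by
    have := Submodule.finrank_lt hne
    rwa [Module.finrank_fintype_fun_eq_card] at this
  have hm0 : 0 < m := by omega
  have hle : ∀ s, power m X ≤ zeros (copies m (α s)) ↔ ∀ x ∈ X, α s ⬝ᵥ x = 0 :=
    fun s => power_le_copies m hm0 (α s) X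
  obtain ⟨s0, hs0, hs0X⟩ : ∃ s, A s ∧ ∀ x ∈ X, α s ⬝ᵥ x = 0 := by
    by_contra hcon
    push Not at hcon
    apply hne
    rw [eq_top_iff]
    intro w _
    apply hflat
    intro s hs hsX
    obtain ⟨x, hx, hx0⟩ := hcon s hs
    exact absurd (hsX x hx) hx0
  let M : Submodule ℂ (ι → ℂ) :=
    Submodule.span ℂ {β | ∃ s, A s ∧ (∀ x ∈ X, α s ⬝ᵥ x = 0) ∧ β = α s}
  have hM : ∀ s, A s → (∀ x ∈ X, α s ⬝ᵥ x = 0) → α s ∈ M :=
    fun s hs hsX => Submodule.subset_span ⟨s, hs, hsX, rfl⟩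
  have hann : ∀ a ∈ M, ∀ x ∈ X, a ⬝ᵥ x = 0 := by
    intro a ha x hx
    induction ha using Submodule.span_induction with
    | mem a ha =>
      obtain ⟨s, _, hsX, rfl⟩ := ha
      exact hsX x hx
    | zero => exact zero_dotProduct _
    | add a b _ _ h1 h2 => rw [add_dotProduct, h1, h2, add_zero]
    | smul r a _ h1 => rw [smul_dotProduct, h1, smul_zero]
  have hrk : Module.finrank ℂ M ≤ m := by
    have := finrank_ann X M hann
    omega
  obtain ⟨g, hg⟩ := exists_injOn M m hrk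
  let u : ι × Fin m → ℂ := fun p => g (Pi.single p.1 1) p.2
  have hu : ∀ a, dots m u a = g a := dots_of m g
  refine ⟨⟨s0, hs0, (hle s0).2 hs0X⟩, u, ?_, ?_⟩
  · intro s hs hsX hus
    have hsX' := (hle s).1 hsX
    apply h0 s hs
    apply hg _ (hM s hs hsX')
    rw [← hu]
    funext k
    exact (mem_zeros_copies m (α s) u).1 hus k
  · intro v hv
    have hlam : ∀ s, A s → (∀ x ∈ X, α s ⬝ᵥ x = 0) → ∃ r : ℂ, dots m v (α s) = r • g (α s) := by
      intro s hs hsX
      obtain ⟨y, hy, z, hz, hyz⟩ := Submodule.mem_sup.1 (hv s hs ((hle s).2 hsX))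
      obtain ⟨r, rfl⟩ := Submodule.mem_span_singleton.1 hz
      refine ⟨r, ?_⟩
      rw [← hu]
      funext k
      have h1 := (mem_zeros_copies m (α s) y).1 hy k
      show α s ⬝ᵥ (fun i => v (i, k)) = r * (α s ⬝ᵥ fun i => u (i, k))
      have h2 : (fun i => v (i, k)) = (fun i => y (i, k)) + r • fun i => u (i, k) := by
        funext i
        rw [← hyz]
        rfl
      rw [h2, dotProduct_add, h1, zero_add, dotProduct_smul, smul_eq_mul]
    let f : M →ₗ[ℂ] (Fin m → ℂ) := g ∘ₗ M.subtype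
    have hf : LinearMap.ker f = ⊥ := by
      rw [LinearMap.ker_eq_bot']
      intro a ha
      exact Subtype.ext (hg a.1 a.2 ha)
    obtain ⟨h, hh⟩ := LinearMap.exists_leftInverse_of_injective f hf
    let T : Module.End ℂ M := h ∘ₗ (dots m v) ∘ₗ M.subtype
    have hT : ∀ s (hs : A s) (hsX : ∀ x ∈ X, α s ⬝ᵥ x = 0) (r : ℂ),
        dots m v (α s) = r • g (α s) → T ⟨α s, hM s hs hsX⟩ = r • ⟨α s, hM s hs hsX⟩ := by
      intro s hs hsX r hr
      show h (dots m v (α s)) = _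
      rw [hr, map_smul]
      congr 1
      exact LinearMap.congr_fun hh ⟨α s, hM s hs hsX⟩
    obtain ⟨r0, hr0⟩ := hlam s0 hs0 hs0X
    let P : Submodule ℂ (ι → ℂ) := (T.eigenspace r0).map M.subtype
    let Q : Submodule ℂ (ι → ℂ) := (⨆ j, ⨆ (_ : j ≠ r0), T.eigenspace j).map M.subtype
    have hdis : Disjoint (T.eigenspace r0) (⨆ j, ⨆ (_ : j ≠ r0), T.eigenspace j) :=
      T.eigenspaces_iSupIndep r0
    have hPQ : Disjoint P Q := by
      rw [Submodule.disjoint_def]
      rintro x ⟨p, hp, rfl⟩ ⟨q, hq, hqp⟩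
      have : q = p := Subtype.ext hqp
      rw [this] at hq
      have h1 := (Submodule.disjoint_def.1 hdis) p hp hq
      rw [h1]
      rfl
    have hmemP : ∀ s (hs : A s) (hsX : ∀ x ∈ X, α s ⬝ᵥ x = 0),
        dots m v (α s) = r0 • g (α s) → α s ∈ P := by
      intro s hs hsX hr
      refine ⟨⟨α s, hM s hs hsX⟩, ?_, rfl⟩
      exact Module.End.mem_eigenspace_iff.2 (hT s hs hsX r0 hr)
    have hdich : ∀ s, A s → (∀ x ∈ X, α s ⬝ᵥ x = 0) → α s ∈ P ∨ α s ∈ Q := by
      intro s hs hsX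
      obtain ⟨r, hr⟩ := hlam s hs hsX
      by_cases hrr : r = r0
      · left
        rw [hrr] at hr
        exact hmemP s hs hsX hr
      · right
        refine ⟨⟨α s, hM s hs hsX⟩, ?_, rfl⟩
        exact Submodule.mem_iSup_of_mem r (Submodule.mem_iSup_of_mem hrr
          (Module.End.mem_eigenspace_iff.2 (hT s hs hsX r hr)))
    have hall : ∀ s, A s → (∀ x ∈ X, α s ⬝ᵥ x = 0) → α s ∈ P := by
      rcases hirr P Q hPQ hdich with h1 | h1
      · exact h1
      · exfalso
        exact h0 s0 hs0 ((Submodule.disjoint_def.1 hPQ) _ (hmemP s0 hs0 hs0X hr0)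
          (h1 s0 hs0 hs0X))
    have hzero : ∀ s, A s → (∀ x ∈ X, α s ⬝ᵥ x = 0) → dots m v (α s) = r0 • g (α s) := by
      intro s hs hsX
      obtain ⟨r, hr⟩ := hlam s hs hsX
      obtain ⟨p, hp, hps⟩ := hall s hs hsX
      have hpe : p = ⟨α s, hM s hs hsX⟩ := Subtype.ext hps
      rw [hpe] at hp
      have h1 := Module.End.mem_eigenspace_iff.1 hp
      rw [hT s hs hsX r hr] at h1
      have h2 : r • α s = r0 • α s := congrArg Subtype.val h1
      have h3 : (r - r0) • α s = 0 := by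
        rw [sub_smul, h2, sub_self]
      rcases smul_eq_zero.1 h3 with h4 | h4
      · rw [hr, sub_eq_zero.1 h4]
      · exact absurd h4 (h0 s hs)
    refine Submodule.mem_sup.2 ⟨v - r0 • u, ?_, r0 • u,
      Submodule.mem_span_singleton.2 ⟨r0, rfl⟩, sub_add_cancel _ _⟩
    intro k
    apply hflat
    intro s hs hsX
    have h1 := congrFun (hzero s hs hsX) k
    rw [← hu] at h1
    have h2 : α s ⬝ᵥ (fun i => v (i, k)) = r0 * (α s ⬝ᵥ fun i => u (i, k)) := h1
    have h3 : (fun i => (v - r0 • u) (i, k)) = (fun i => v (i, k)) - r0 • fun i => u (i, k) := by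
      funext i
      rfl
    rw [h3, dotProduct_sub, h2, dotProduct_smul, smul_eq_mul, sub_self]

theorem mem_hyp (a x : ι → ℂ) : x ∈ hyp a ↔ a ⬝ᵥ x = 0 := Iff.rfl

/-- A pair of vectors on which no two forms with different hyperplanes are proportional. -/
theorem exists_two [Finite S] (α : S → ι → ℂ) (A : S → Prop) (h0 : ∀ s, A s → α s ≠ 0) :
    ∃ x y : ι → ℂ, (∀ s, A s → α s ⬝ᵥ x ≠ 0) ∧
      ∀ s, A s → ∀ s', A s' → hyp (α s) ≠ hyp (α s') →
        (α s ⬝ᵥ x) * (α s' ⬝ᵥ y) - (α s' ⬝ᵥ x) * (α s ⬝ᵥ y) ≠ 0 := by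
  have htop : ∀ a : ι → ℂ, a ≠ 0 → ¬ (⊤ : Submodule ℂ (ι → ℂ)) ≤ hyp a := by
    intro a ha h
    apply ha
    funext i
    have h1 : a ⬝ᵥ Pi.single i (1 : ℂ) = 0 := h (x := Pi.single i (1 : ℂ)) trivial
    rwa [dotProduct_single, mul_one] at h1
  obtain ⟨x, _, hx⟩ := exists_generic (fun s => hyp (α s)) ⊤
  have hx' : ∀ s, A s → α s ⬝ᵥ x ≠ 0 := fun s hs h => hx s (htop _ (h0 s hs)) h
  obtain ⟨y, _, hy⟩ := exists_generic
    (fun p : S × S => hyp ((α p.1 ⬝ᵥ x) • α p.2 - (α p.2 ⬝ᵥ x) • α p.1)) ⊤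
  refine ⟨x, y, hx', fun s hs s' hs' hne h => ?_⟩
  refine hy (s, s') (htop _ fun hz => hne ?_) ?_
  · have h1 : (α s ⬝ᵥ x) • α s' = (α s' ⬝ᵥ x) • α s := sub_eq_zero.1 hz
    have h2 : ∀ z, (α s ⬝ᵥ x) * (α s' ⬝ᵥ z) = (α s' ⬝ᵥ x) * (α s ⬝ᵥ z) := by
      intro z
      have h3 := congrArg (fun a : ι → ℂ => a ⬝ᵥ z) h1
      simpa only [smul_dotProduct, smul_eq_mul] using h3
    ext z
    rw [mem_hyp, mem_hyp]
    constructor
    · intro hz
      have h3 := h2 z
      rw [hz, mul_zero] at h3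
      exact (mul_eq_zero.1 h3).resolve_left (hx' s hs)
    · intro hz
      have h3 := (h2 z).symm
      rw [hz, mul_zero] at h3
      exact (mul_eq_zero.1 h3).resolve_left (hx' s' hs')
  · rw [mem_hyp, sub_dotProduct, smul_dotProduct, smul_dotProduct, smul_eq_mul, smul_eq_mul]
    exact h

/-- **The constructible subspaces.** Let `m ≥ 2`, and let `X` be constructible from the
hyperplanes `α s = 0`. Then `X ⊗ ℂ ^ m` is a Rees flat of the subspaces `(α s = 0) ⊗ ℂ ^ m`. -/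
theorem isReesFlat_constructible [Finite S] (m : ℕ) (hm : 2 ≤ m) (α : S → ι → ℂ) (A : S → Prop)
    (X : Submodule ℂ (ι → ℂ)) (h0 : ∀ s, A s → α s ≠ 0) (hX : IsConstructible α A X) :
    IsReesFlat (fun s => zeros (copies m (α s))) A (power m X) := by
  obtain ⟨x, y, hx, hxy⟩ := exists_two α A h0
  have hle : ∀ (s : S) (X : Submodule ℂ (ι → ℂ)),
      power m X ≤ zeros (copies m (α s)) ↔ X ≤ hyp (α s) :=
    fun s X => power_le_copies m (by omega) (α s) X
  let u : ι × Fin m → ℂ := fun p => if (p.2 : ℕ) = 0 then x p.1 else y p.1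
  have hu0 : ∀ a : ι → ℂ, (a ⬝ᵥ fun i => u (i, ⟨0, by omega⟩)) = a ⬝ᵥ x := fun a => rfl
  have hu1 : ∀ a : ι → ℂ, (a ⬝ᵥ fun i => u (i, ⟨1, by omega⟩)) = a ⬝ᵥ y := fun a => rfl
  have key : ∀ (v : ι × Fin m → ℂ) (X : Submodule ℂ (ι → ℂ)), IsConstructible α A X →
      (∀ s, A s → X ≤ hyp (α s) → ∃ r : ℂ, ∀ k, (α s ⬝ᵥ fun i => v (i, k))
        = r * (α s ⬝ᵥ fun i => u (i, k))) →
      ∃ r : ℂ, ∀ k, (fun i => v (i, k) - r * u (i, k)) ∈ X := by
    intro v X hX
    have hdot : ∀ (a : ι → ℂ) (r : ℂ) (k : Fin m), (a ⬝ᵥ fun i => v (i, k) - r * u (i, k))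
        = (a ⬝ᵥ fun i => v (i, k)) - r * (a ⬝ᵥ fun i => u (i, k)) := by
      intro a r k
      have : (fun i => v (i, k) - r * u (i, k))
          = (fun i => v (i, k)) - r • fun i => u (i, k) := rfl
      rw [this, dotProduct_sub, dotProduct_smul, smul_eq_mul]
    induction hX with
    | one s hs =>
      intro h
      obtain ⟨r, hr⟩ := h s hs (le_refl _)
      refine ⟨r, fun k => ?_⟩
      rw [mem_hyp, hdot, hr, sub_self]
    | add X s s' hX hs hs' hne heq hX' ih =>
      intro h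
      obtain ⟨r, hr⟩ := ih fun t ht hXt => h t ht (inf_le_left.trans hXt)
      obtain ⟨r1, hr1⟩ := h s hs inf_le_right
      obtain ⟨r2, hr2⟩ := h s' hs' (heq ▸ inf_le_right)
      obtain ⟨z, hz, hz0⟩ : ∃ z ∈ X, α s ⬝ᵥ z ≠ 0 := by
        by_contra hcon
        push Not at hcon
        exact hX' (inf_eq_left.2 hcon)
      have hz1 : α s' ⬝ᵥ z ≠ 0 := by
        intro h1
        have h2 : z ∈ X ⊓ hyp (α s) := by
          rw [heq]
          exact ⟨hz, h1⟩
        exact hz0 h2.2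
      have hprop : ∀ w ∈ X, (α s ⬝ᵥ z) * (α s' ⬝ᵥ w) = (α s' ⬝ᵥ z) * (α s ⬝ᵥ w) := by
        intro w hw
        have h1 : (α s ⬝ᵥ z) • w - (α s ⬝ᵥ w) • z ∈ X ⊓ hyp (α s) := by
          refine ⟨X.sub_mem (X.smul_mem _ hw) (X.smul_mem _ hz), ?_⟩
          show α s ⬝ᵥ _ = 0
          rw [dotProduct_sub, dotProduct_smul, dotProduct_smul, smul_eq_mul, smul_eq_mul]
          ring
        rw [heq] at h1
        have h2 : α s' ⬝ᵥ _ = 0 := h1.2
        rw [dotProduct_sub, dotProduct_smul, dotProduct_smul, smul_eq_mul, smul_eq_mul] at h2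
        linear_combination h2
      have e0 := hprop _ (hr ⟨0, by omega⟩)
      have e1 := hprop _ (hr ⟨1, by omega⟩)
      rw [hdot, hdot, hr1, hr2, hu0, hu0] at e0
      rw [hdot, hdot, hr1, hr2, hu1, hu1] at e1
      have hD := hxy s hs s' hs' hne
      have e2 : (α s' ⬝ᵥ z) * (r1 - r) *
          ((α s ⬝ᵥ x) * (α s' ⬝ᵥ y) - (α s' ⬝ᵥ x) * (α s ⬝ᵥ y)) = 0 := by
        linear_combination (α s' ⬝ᵥ x) * e1 - (α s' ⬝ᵥ y) * e0
      have e3 : r1 = r := by
        rcases mul_eq_zero.1 e2 with h1 | h1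
        · rcases mul_eq_zero.1 h1 with h2 | h2
          · exact absurd h2 hz1
          · exact sub_eq_zero.1 h2
        · exact absurd h1 hD
      refine ⟨r, fun k => ⟨hr k, ?_⟩⟩
      show α s ⬝ᵥ _ = 0
      rw [hdot, hr1, e3, sub_self]
  have hex : ∃ s, A s ∧ X ≤ hyp (α s) := by
    induction hX with
    | one s hs => exact ⟨s, hs, le_refl _⟩
    | add X s s' hX hs hs' hne heq hX' ih => exact ⟨s, hs, inf_le_right⟩
  obtain ⟨s0, hs0, hs0X⟩ := hex
  refine ⟨⟨s0, hs0, (hle s0 X).2 hs0X⟩, u, fun s hs _ hus => ?_, fun v hv => ?_⟩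
  · exact hx s hs ((mem_zeros_copies m (α s) u).1 hus ⟨0, by omega⟩)
  · obtain ⟨r, hr⟩ := key v X hX (by
      intro s hs hsX
      obtain ⟨v1, hv1, v2, hv2, hv12⟩ := Submodule.mem_sup.1 (hv s hs ((hle s X).2 hsX))
      obtain ⟨r, rfl⟩ := Submodule.mem_span_singleton.1 hv2
      refine ⟨r, fun k => ?_⟩
      have h1 := (mem_zeros_copies m (α s) v1).1 hv1 k
      have h2 : (fun i => v (i, k)) = (fun i => v1 (i, k)) + r • fun i => u (i, k) := by
        funext i
        rw [← hv12]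
        rfl
      rw [h2, dotProduct_add, h1, zero_add, dotProduct_smul, smul_eq_mul])
    exact Submodule.mem_sup.2 ⟨v - r • u, fun k => hr k, r • u,
      Submodule.mem_span_singleton.2 ⟨r, rfl⟩, sub_add_cancel _ _⟩

theorem finrank_power (m : ℕ) (X : Submodule ℂ (ι → ℂ)) :
    Module.finrank ℂ (power m X) = m * Module.finrank ℂ X := by
  let E : power m X ≃ₗ[ℂ] (Fin m → X) :=
    { toFun := fun x k => ⟨fun i => x.1 (i, k), x.2 k⟩
      map_add' := fun _ _ => rfl
      map_smul' := fun _ _ => rfl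
      invFun := fun y => ⟨fun p => (y p.2).1 p.1, fun k => (y k).2⟩
      left_inv := fun _ => rfl
      right_inv := fun _ => rfl }
  rw [E.finrank_eq, Module.finrank_pi_fintype]
  simp

theorem codim_power (m : ℕ) (X : Submodule ℂ (ι → ℂ)) :
    Fintype.card (ι × Fin m) - Module.finrank ℂ (power m X)
      = m * (Fintype.card ι - Module.finrank ℂ X) := by
  rw [finrank_power, Fintype.card_prod, Fintype.card_fin, Nat.mul_sub,
    Nat.mul_comm (Fintype.card ι) m]

/-- The irreducible flats of codimension at most `m`, and, if `m ≥ 2`, the constructible subspaces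
give Rees flats. -/
theorem isReesFlat_multiple [Finite S] (m : ℕ) (α : S → ι → ℂ) (A : S → Prop)
    (X : Submodule ℂ (ι → ℂ)) (h0 : ∀ s, A s → α s ≠ 0)
    (hX : IsIrreducibleFlat α A X ∧ Fintype.card ι ≤ m + Module.finrank ℂ X ∨
      IsConstructible α A X ∧ 2 ≤ m) :
    IsReesFlat (fun s => zeros (copies m (α s))) A (power m X) := by
  rcases hX with ⟨hX, hm⟩ | ⟨hX, hm⟩
  · exact isReesFlat_power m α A X h0 hX hm
  · exact isReesFlat_constructible m hm α A X h0 hX

end Pool.Agent.TH187.SA
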