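import Pool.Agent.TH192.DT.Poles

set_option autoImplicit false
set_option linter.unusedSectionVars false
set_option linter.unusedVariables false

/-! # Charts on the exceptional divisors of the blow-ups of linear subspaces -/

namespace Pool.Agent.TH187.SA

open MvPowerSeries Pool.Agent.W574.SM Pool.Agent.TH192.DT

variable {σ : Type} [Fintype σ] [DecidableEq σ]

/-- The linear form with the coefficients `c`. -/
noncomputable def lin (c : σ → ℂ) : MvPolynomial σ ℂ :=
  ∑ i, MvPolynomial.C (c i) * MvPolynomial.X i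

/-- The common zeros of the linear forms with the coefficients `c j`. -/
def zeros {κ : Type} (c : κ → σ → ℂ) : Submodule ℂ (σ → ℂ) where
  carrier := {x | ∀ j, c j ⬝ᵥ x = 0}
  add_mem' := by
    intro x y hx hy j
    rw [dotProduct_add, hx j, hy j, add_zero]
  zero_mem' := by
    intro j
    rw [dotProduct_zero]
  smul_mem' := by
    intro r x hx j
    rw [dotProduct_smul, hx j, smul_zero]

theorem mem_zeros {κ : Type} (c : κ → σ → ℂ) (x : σ → ℂ) :
    x ∈ zeros c ↔ ∀ j, c j ⬝ᵥ x = 0 := Iff.rfl

/-- The linear coordinates of a chart: a basis `v`, the index `z` of the direction of the chart, the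
set `T` of the tangential directions and the base point `g`. -/
structure Lc (σ : Type) [Fintype σ] [DecidableEq σ] where
  v : Matrix σ σ ℂ
  hv : v.det ≠ 0
  z : σ
  T : Finset σ
  hz : z ∉ T
  g : σ → ℂ

namespace Lc

variable (D : Lc σ)

/-- the coordinates with respect to the basis, in the chart -/
noncomputable def eta (i : σ) : MvPowerSeries σ ℂ :=
  if i ∈ D.T then X i else if i = D.z then X D.z else X D.z * X i

/-- the chart -/
noncomputable def xi (j : σ) : MvPowerSeries σ ℂ :=
  MvPowerSeries.C (D.g j) + ∑ i, MvPowerSeries.C (D.v i j) * D.eta i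

theorem eta_T {i : σ} (h : i ∈ D.T) : D.eta i = X i := if_pos h

theorem eta_z : D.eta D.z = X D.z := by
  rw [eta, if_neg D.hz, if_pos rfl]

theorem eta_N {i : σ} (h : i ∉ D.T) (hz : i ≠ D.z) : D.eta i = X D.z * X i := by
  rw [eta, if_neg h, if_neg hz]

theorem cc_eta (i : σ) : constantCoeff (D.eta i) = 0 := by
  rw [eta]
  split_ifs
  · exact constantCoeff_X i
  · exact constantCoeff_X _
  · rw [map_mul, constantCoeff_X, zero_mul]

theorem cc_xi (j : σ) : constantCoeff (D.xi j) = D.g j := by
  rw [xi, map_add, constantCoeff_C, map_sum, Finset.sum_eq_zero, add_zero]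
  intro i _
  rw [map_mul, D.cc_eta, mul_zero]

theorem aeval_lin (c : σ → ℂ) :
    MvPolynomial.aeval D.xi (lin c) = MvPowerSeries.C (c ⬝ᵥ D.g)
      + ∑ i, MvPowerSeries.C (c ⬝ᵥ D.v i) * D.eta i := by
  have h1 : ∀ r : ℂ, (MvPolynomial.aeval D.xi) (MvPolynomial.C r : MvPolynomial σ ℂ)
      = MvPowerSeries.C r := fun r => MvPolynomial.aeval_C _ _
  rw [lin, map_sum]
  simp only [map_mul, h1, MvPolynomial.aeval_X, xi, mul_add, Finset.sum_add_distrib,
    Finset.mul_sum]
  congr 1
  · rw [dotProduct, map_sum]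
    exact Finset.sum_congr rfl fun i _ => (map_mul _ _ _).symm
  · rw [Finset.sum_comm]
    refine Finset.sum_congr rfl fun i _ => ?_
    rw [dotProduct, map_sum, Finset.sum_mul]
    refine Finset.sum_congr rfl fun j _ => ?_
    rw [map_mul]
    ring

/-- the Jacobian matrix of `eta` -/
noncomputable def Je : Matrix σ σ (MvPowerSeries σ ℂ) := Matrix.of fun t i => pderiv ℂ t (D.eta i)

theorem pderiv_X' (t i : σ) : pderiv ℂ t (X i : MvPowerSeries σ ℂ) = if t = i then 1 else 0 := by
  by_cases h : t = i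
  · subst h
    rw [if_pos rfl]
    exact pderiv_X_self
  · rw [if_neg h]
    exact pderiv_X_of_ne (Ne.symm h)

/-- the diagonal factor of the Jacobian matrix -/
noncomputable def dg (t : σ) : MvPowerSeries σ ℂ := if t ∈ D.T ∨ t = D.z then 1 else X D.z

/-- the unipotent factor of the Jacobian matrix -/
noncomputable def un : Matrix σ σ (MvPowerSeries σ ℂ) :=
  1 + Matrix.replicateCol Unit (Pi.single D.z (1 : MvPowerSeries σ ℂ) : σ → MvPowerSeries σ ℂ) *
    Matrix.replicateRow Unit
      (fun i => if i ∈ D.T ∨ i = D.z then 0 else X i : σ → MvPowerSeries σ ℂ)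

theorem det_un : D.un.det = 1 := by
  rw [un, Matrix.det_one_add_replicateCol_mul_replicateRow, dotProduct_single, mul_one,
    if_pos (Or.inr rfl), add_zero]

theorem Je_eq : D.Je = Matrix.diagonal D.dg * D.un := by
  ext1 t i
  rw [Matrix.diagonal_mul, un, Matrix.add_apply, Matrix.mul_apply]
  simp only [Finset.univ_unique, Matrix.replicateCol_apply, Matrix.replicateRow_apply,
    Finset.sum_const, Finset.card_singleton, one_smul, Je, Matrix.of_apply, Matrix.one_apply]
  rw [dg]
  by_cases hiT : i ∈ D.T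
  · rw [D.eta_T hiT, pderiv_X', if_pos (Or.inl hiT), mul_zero, add_zero]
    by_cases hti : t = i
    · subst hti
      rw [if_pos rfl, if_pos (Or.inl hiT), mul_one]
    · rw [if_neg hti, mul_zero]
  · by_cases hiz : i = D.z
    · subst hiz
      rw [D.eta_z, pderiv_X', if_pos (Or.inr rfl), mul_zero, add_zero]
      by_cases hti : t = D.z
      · rw [if_pos hti, if_pos (Or.inr hti), mul_one]
      · rw [if_neg hti, mul_zero]
    · have hi' : ¬ (i ∈ D.T ∨ i = D.z) := by
        rintro (h | h)
        · exact hiT h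
        · exact hiz h
      rw [D.eta_N hiT hiz, Derivation.leibniz, pderiv_X', pderiv_X', if_neg hi']
      simp only [smul_eq_mul]
      by_cases htz : t = D.z
      · subst htz
        rw [if_pos rfl, if_neg (Ne.symm hiz), if_pos (Or.inr rfl), Pi.single_eq_same]
        ring
      · rw [if_neg htz, Pi.single_eq_of_ne htz, zero_mul, mul_zero, add_zero, add_zero]
        by_cases hti : t = i
        · subst hti
          rw [if_pos rfl, if_neg hi']
        · rw [if_neg hti, mul_zero, mul_zero]

theorem det_Je : D.Je.det = X D.z ^ (Fintype.card σ - 1 - D.T.card) := by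
  rw [Je_eq, Matrix.det_mul, Matrix.det_diagonal, det_un, mul_one]
  have h1 : ∏ t, D.dg t = ∏ t, if t ∈ Finset.univ \ (insert D.z D.T) then X D.z
      else (1 : MvPowerSeries σ ℂ) := by
    refine Finset.prod_congr rfl fun t _ => ?_
    rw [dg]
    by_cases h : t ∈ D.T ∨ t = D.z
    · rw [if_pos h, if_neg]
      simp only [Finset.mem_sdiff, Finset.mem_univ, true_and, Finset.mem_insert, not_not]
      exact h.symm
    · rw [if_neg h, if_pos]
      simp only [Finset.mem_sdiff, Finset.mem_univ, true_and, Finset.mem_insert]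
      exact fun h' => h h'.symm
  rw [h1, Finset.prod_ite_mem, Finset.univ_inter, Finset.prod_const,
    Finset.card_univ_sdiff, Finset.card_insert_of_notMem D.hz]
  congr 1
  omega

theorem jacobian : ∃ U : MvPowerSeries σ ℂ, constantCoeff U ≠ 0 ∧
    (Matrix.of fun t i => pderiv ℂ t (D.xi i)).det
      = X D.z ^ (Fintype.card σ - 1 - D.T.card) * U := by
  refine ⟨(D.v.map MvPowerSeries.C).det, ?_, ?_⟩
  · have h1 : (D.v.map MvPowerSeries.C).det = MvPowerSeries.C (σ := σ) D.v.det :=
      (RingHom.map_det (MvPowerSeries.C : ℂ →+* MvPowerSeries σ ℂ) D.v).symm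
    rw [h1, constantCoeff_C]
    exact D.hv
  · rw [← det_Je, ← Matrix.det_mul]
    congr 1
    ext1 t j
    rw [Matrix.of_apply, Matrix.mul_apply, xi, map_add, pderiv_C, zero_add, map_sum]
    refine Finset.sum_congr rfl fun i _ => ?_
    rw [Derivation.leibniz, pderiv_C, smul_zero, add_zero, smul_eq_mul, Je, Matrix.of_apply,
      Matrix.map_apply, mul_comm]

/-- the pull-back of a linear form which vanishes on the centre -/
theorem aeval_center (c : σ → ℂ) (hg : c ⬝ᵥ D.g = 0) (hT : ∀ i ∈ D.T, c ⬝ᵥ D.v i = 0) :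
    MvPolynomial.aeval D.xi (lin c) = X D.z * (MvPowerSeries.C (c ⬝ᵥ D.v D.z)
      + ∑ i ∈ Finset.univ.filter fun i => i ∉ D.T ∧ i ≠ D.z,
        MvPowerSeries.C (c ⬝ᵥ D.v i) * X i) := by
  rw [aeval_lin, hg, map_zero, zero_add, mul_add, Finset.mul_sum,
    ← Finset.add_sum_erase _ _ (Finset.mem_univ D.z), D.eta_z, mul_comm (X D.z)]
  congr 1
  have h1 : ∑ i ∈ Finset.univ.erase D.z, MvPowerSeries.C (c ⬝ᵥ D.v i) * D.eta i
      = ∑ i ∈ (Finset.univ.erase D.z).filter (fun i => i ∉ D.T),
        MvPowerSeries.C (c ⬝ᵥ D.v i) * D.eta i := by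
    rw [Finset.sum_filter]
    refine Finset.sum_congr rfl fun i _ => ?_
    by_cases h : i ∈ D.T
    · rw [if_neg (not_not.2 h), hT i h, map_zero, zero_mul]
    · rw [if_pos h]
  rw [h1]
  have h2 : (Finset.univ.erase D.z).filter (fun i => i ∉ D.T)
      = Finset.univ.filter fun i => i ∉ D.T ∧ i ≠ D.z := by
    ext i
    simp [and_comm]
  rw [h2]
  refine Finset.sum_congr rfl fun i hi => ?_
  rw [Finset.mem_filter] at hi
  rw [D.eta_N hi.2.1 hi.2.2]
  ring

end Lc

end Pool.Agent.TH187.SA
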