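import Pool.Agent.TH187.SA.Flats

set_option autoImplicit false
set_option linter.unusedSectionVars false
set_option linter.unusedVariables false

/-! # Products of powers of forms over products of ideals of linear subspaces -/

namespace Pool.Agent.TH187.SA

open MvPolynomial Pool.Agent.W574.SM Pool.Agent.W574.HS Pool.Agent.W574.LM
  Pool.Agent.H628R4.TP Pool.Agent.TH192.DT

/-- The numbers `ν`: the codimensions of the `G i`, and `1` for the strict transforms. -/
noncomputable def nuA {σ I : Type} [Fintype σ] (G : I → Submodule ℂ (σ → ℂ)) (T : Type) :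
    I ⊕ T → ℕ :=
  Sum.elim (fun i => Fintype.card σ - Module.finrank ℂ (G i)) fun _ => 1

/-- The multiplicities of `∏ t, F_t ^ a t`, where `F_t` is a form over `∏ s, I(H s) ^ e t s`:
`N_G = ∑ t, a t ∑ e t s`, the second sum over the `s` with `G ⊆ H s`, and `a t` along the strict
transform of `F_t = 0`. -/
noncomputable def mulA {V S I T : Type} [AddCommGroup V] [Module ℂ V] [Fintype S] [Fintype T]
    (H : S → Submodule ℂ V) (e : T → S → ℕ) (a : T → ℕ) (G : I → Submodule ℂ V) : I ⊕ T → ℕ :=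
  Sum.elim (fun i => ∑ t, a t * mult H (e t) (G i)) a

/-- The subspace of index `s` occurs in `∏ t, F_t ^ a t`. -/
def Occurs {S T : Type} (e : T → S → ℕ) (a : T → ℕ) (s : S) : Prop := ∃ t, a t ≠ 0 ∧ e t s ≠ 0

variable {σ S T I : Type} [Fintype σ] [DecidableEq σ] [Fintype S] [DecidableEq S] [Fintype T]
  [DecidableEq T] {κ : S → Type} [∀ s, Fintype (κ s)] [∀ s, DecidableEq (κ s)]

theorem lin_ne (c : σ → ℂ) (h : c ≠ 0) : lin c ≠ 0 := by
  obtain ⟨i, hi⟩ := Function.ne_iff.1 h
  intro h0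
  apply hi
  have h1 := congrArg (eval (Pi.single i (1 : ℂ))) h0
  rwa [eval_lin, dotProduct_single, mul_one, map_zero] at h1

theorem arrGen_ne (c : (s : S) → κ s → σ → ℂ) (hc : ∀ s, ∃ j, c s j ≠ 0) (e : S → ℕ) :
    ∃ j, arrGen c e j ≠ 0 :=
  exists_prod_ne _ fun p => by
    obtain ⟨j, hj⟩ := hc p.1
    exact ⟨j, lin_ne _ hj⟩

theorem codim_pos {H : S → Submodule ℂ (σ → ℂ)} {A : S → Prop} {G : Submodule ℂ (σ → ℂ)}
    (hG : IsReesFlat H A G) : 0 < Fintype.card σ - Module.finrank ℂ G := by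
  obtain ⟨⟨s, hs, hGs⟩, u, hu, _⟩ := hG
  have h1 : G ≠ ⊤ := fun h => hu s hs hGs (hGs (by rw [h]; trivial))
  have h2 := Submodule.finrank_lt h1
  rw [Module.finrank_fintype_fun_eq_card] at h2
  omega

theorem nuA_pos {H : S → Submodule ℂ (σ → ℂ)} {A : S → Prop} (G : I → Submodule ℂ (σ → ℂ))
    (hG : ∀ i, IsReesFlat H A (G i)) (x : I ⊕ T) : 0 < nuA G T x := by
  rcases x with i | t
  · exact codim_pos (hG i)
  · exact one_pos

theorem pow_arr (c : (s : S) → κ s → σ → ℂ) (e : T → S → ℕ) (a : T → ℕ)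
    (G : I → Submodule ℂ (σ → ℂ))
    (hG : ∀ i, IsReesFlat (fun s => zeros (c s)) (Occurs e a) (G i)) (b : Polynomial ℂ)
    (hb : PowData a (fun t => arrGen c (e t)) b) (x : I ⊕ T) (l : ℕ)
    (hl : l < mulA (fun s => zeros (c s)) e a G x) :
    b.eval (-((nuA G T x : ℂ) + l) / mulA (fun s => zeros (c s)) e a G x) = 0 := by
  rcases x with i | t
  · obtain ⟨s, ⟨t, hat, _⟩, _⟩ := (hG i).1
    obtain ⟨H, hH, hHb⟩ := hb.ideal ⟨t, hat⟩
    have h1 : ∑ q : Σ t, Fin (a t), mult (fun s => zeros (c s)) (e q.1) (G i)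
        = mulA (fun s => zeros (c s)) e a G (Sum.inl i) := by
      rw [Fintype.sum_sigma]
      change _ = ∑ t, a t * mult (fun s => zeros (c s)) (e t) (G i)
      refine Finset.sum_congr rfl fun t _ => ?_
      simp only [Finset.sum_const, Finset.card_univ, Fintype.card_fin, smul_eq_mul]
    have hA : (fun s => ∃ q : Σ t, Fin (a t), e q.1 s ≠ 0) = Occurs e a := by
      funext s
      apply propext
      constructor
      · rintro ⟨q, hq⟩
        exact ⟨q.1, fun h => by have := q.2.2; omega, hq⟩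
      · rintro ⟨t, h, h'⟩
        exact ⟨⟨t, ⟨0, Nat.pos_of_ne_zero h⟩⟩, h'⟩
    have h2 := arr_roots c (fun q : Σ t, Fin (a t) => e q.1) b H hH hHb (G i)
      (by rw [hA]; exact hG i) l (by rw [h1]; exact hl)
    rw [h1] at h2
    exact h2
  · have h3 := hb.strict t l hl
    change b.eval (-(((1 : ℕ) : ℂ) + l) / a t) = 0
    rw [Nat.cast_one]
    exact h3

end Pool.Agent.TH187.SA
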