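import Pool.Agent.TH187.SA.Chart

set_option autoImplicit false
set_option linter.unusedSectionVars false
set_option linter.unusedVariables false

/-! # Covectors, adapted bases, general points -/

namespace Pool.Agent.TH187.SA

open MvPowerSeries Pool.Agent.W574.SM Pool.Agent.TH192.DT

section Cov

variable {σ : Type}

/-- The family `f`, of the order `a` along `z = 0`, gives the covector `ℓ` (on the directions
different from `z`). -/
def Cov {ι : Type} (z : σ) (ξ : σ → MvPowerSeries σ ℂ) (a : ℕ) (f : ι → MvPolynomial σ ℂ)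
    (ℓ : σ → ℂ) : Prop :=
  ∃ G ∈ Submodule.span ℂ (Set.range f), ∃ w : MvPowerSeries σ ℂ, constantCoeff w = 0 ∧
    (∀ l, l ≠ z → coeff (Finsupp.single l 1) w = ℓ l) ∧ MvPolynomial.aeval ξ G = X z ^ a * w

variable {ι : Type} {z : σ} {ξ : σ → MvPowerSeries σ ℂ} {a : ℕ} {f : ι → MvPolynomial σ ℂ}

theorem cov_zero : Cov z ξ a f 0 := by
  refine ⟨0, Submodule.zero_mem _, 0, map_zero _, fun l _ => ?_, ?_⟩
  · rw [map_zero, Pi.zero_apply]
  · rw [map_zero, mul_zero]

theorem cov_add {ℓ ℓ' : σ → ℂ} (h : Cov z ξ a f ℓ) (h' : Cov z ξ a f ℓ') :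
    Cov z ξ a f (ℓ + ℓ') := by
  obtain ⟨G, hG, w, h0, h1, h2⟩ := h
  obtain ⟨G', hG', w', h0', h1', h2'⟩ := h'
  refine ⟨G + G', Submodule.add_mem _ hG hG', w + w', ?_, fun l hl => ?_, ?_⟩
  · rw [map_add, h0, h0', add_zero]
  · rw [map_add, h1 l hl, h1' l hl, Pi.add_apply]
  · rw [map_add, h2, h2', mul_add]

theorem cov_smul {ℓ : σ → ℂ} (r : ℂ) (h : Cov z ξ a f ℓ) : Cov z ξ a f (r • ℓ) := by
  obtain ⟨G, hG, w, h0, h1, h2⟩ := h
  refine ⟨r • G, Submodule.smul_mem _ _ hG, r • w, ?_, fun l hl => ?_, ?_⟩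
  · rw [smul_eq_C_mul, map_mul, h0, mul_zero]
  · rw [map_smul, h1 l hl, Pi.smul_apply]
  · rw [map_smul, h2, mul_smul_comm]

theorem gives_of_cov {ℓ : σ → ℂ} (h : Cov z ξ a f ℓ) (t : σ) (htz : t ≠ z) (ht : ℓ t ≠ 0)
    (h0 : ∀ l, l ≠ z → l ≠ t → ℓ l = 0) : Gives z ξ a f t := by
  obtain ⟨G, hG, w, hw0, hw1, hw2⟩ := h
  refine ⟨G, hG, w, ⟨hw0, ?_, fun l hl hlt => ?_⟩, hw2⟩
  · rw [hw1 t htz]
    exact ht
  · rw [hw1 l hl]
    exact h0 l hl hlt

/-- a covector of one factor is a covector of the product -/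
theorem cov_prod {τ : Type} [Fintype τ] [DecidableEq τ] {κ : τ → Type} [∀ t, Fintype (κ t)]
    (z : σ) (ξ : σ → MvPowerSeries σ ℂ) (a : τ → ℕ)
    (f : (t : τ) → κ t → MvPolynomial σ ℂ) (h : ∀ t, HasOrd z ξ (a t) (f t)) (t0 : τ)
    (ℓ : σ → ℂ) (hg : Cov z ξ (a t0) (f t0) ℓ) :
    Cov z ξ (∑ t, a t) (prodFam f) ℓ := by
  choose h1 F hF U hU hFU using h
  obtain ⟨G, hG, w, hw, hw1, hGw⟩ := hg
  have hu : constantCoeff (∏ t ∈ Finset.univ.erase t0, U t) ≠ 0 := by
    rw [map_prod]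
    exact Finset.prod_ne_zero_iff.2 fun t _ => hU t
  have key : Cov z ξ (∑ t, a t) (prodFam f)
      (constantCoeff (∏ t ∈ Finset.univ.erase t0, U t) • ℓ) := by
    refine ⟨∏ t, Function.update F t0 G t, prod_mem_span f _ fun t => ?_,
      (∏ t ∈ Finset.univ.erase t0, U t) * w, ?_, fun l hl => ?_, ?_⟩
    · by_cases ht : t = t0
      · subst ht; rw [Function.update_self]; exact hG
      · rw [Function.update_of_ne ht]; exact hF t
    · rw [map_mul, hw, mul_zero]
    · rw [coeff_single_mul l _ w hw, hw1 l hl, Pi.smul_apply, smul_eq_mul]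
    · rw [map_prod, ← Finset.prod_pow_eq_pow_sum,
        ← Finset.mul_prod_erase _ _ (Finset.mem_univ t0),
        ← Finset.mul_prod_erase _ (fun t => X z ^ a t) (Finset.mem_univ t0),
        Function.update_self, hGw]
      have h2 : ∏ t ∈ Finset.univ.erase t0, MvPolynomial.aeval ξ (Function.update F t0 G t)
          = (∏ t ∈ Finset.univ.erase t0, X z ^ a t) * ∏ t ∈ Finset.univ.erase t0, U t := by
        rw [← Finset.prod_mul_distrib]
        refine Finset.prod_congr rfl fun t ht => ?_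
        rw [Function.update_of_ne (Finset.ne_of_mem_erase ht), hFU]
      rw [h2]
      ring
  have h3 := cov_smul (constantCoeff (∏ t ∈ Finset.univ.erase t0, U t))⁻¹ key
  rwa [smul_smul, inv_mul_cancel₀ hu, one_smul] at h3

end Cov

section Linear

variable {σ : Type} [Fintype σ] [DecidableEq σ]

/-- a linear functional as a dot product -/
theorem dual_rep (f : (σ → ℂ) →ₗ[ℂ] ℂ) (x : σ → ℂ) :
    (fun j => f (Pi.single j 1)) ⬝ᵥ x = f x := by
  have h1 : x = ∑ j, x j • (Pi.single j (1 : ℂ) : σ → ℂ) := by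
    funext i
    simp [Finset.sum_apply, Pi.single_apply]
  conv_rhs => rw [h1]
  rw [map_sum, dotProduct]
  refine Finset.sum_congr rfl fun j _ => ?_
  rw [map_smul, smul_eq_mul, mul_comm]

/-- separation of a covector and a space of covectors -/
theorem separate (W : Submodule ℂ (σ → ℂ)) (c : σ → ℂ) (hc : c ∉ W) :
    ∃ v : σ → ℂ, (∀ w ∈ W, w ⬝ᵥ v = 0) ∧ c ⬝ᵥ v ≠ 0 := by
  obtain ⟨f, hf, hf'⟩ := Submodule.exists_dual_map_eq_bot_of_notMem hc inferInstance
  refine ⟨fun j => f (Pi.single j 1), fun w hw => ?_, ?_⟩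
  · rw [dotProduct_comm, dual_rep]
    have h1 : f w ∈ W.map f := Submodule.mem_map_of_mem hw
    rw [hf'] at h1
    exact (Submodule.mem_bot ℂ).1 h1
  · rw [dotProduct_comm, dual_rep]
    exact hf

/-- A basis adapted to `G` and to the vector `u`. -/
theorem exists_adapted (G : Submodule ℂ (σ → ℂ)) (u : σ → ℂ) (hu : u ∉ G) :
    ∃ (v : Module.Basis σ ℂ (σ → ℂ)) (z : σ) (T : Finset σ), z ∉ T ∧ v z = u ∧
      (∀ i ∈ T, v i ∈ G) ∧ (∀ x ∈ G, ∀ i, i ∉ T → v.coord i x = 0) ∧
      T.card = Module.finrank ℂ G := by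
  classical
  let bG := Module.finBasis ℂ G
  let w : Fin (Module.finrank ℂ G) → (σ → ℂ) := fun i => (bG i : σ → ℂ)
  have hwG : ∀ i, w i ∈ G := fun i => (bG i).2
  have hw : LinearIndependent ℂ w := by
    have h1 := bG.linearIndependent
    exact h1.map' G.subtype (Submodule.ker_subtype G)
  have hspan : Submodule.span ℂ (Set.range w) ≤ G := by
    rw [Submodule.span_le]
    rintro _ ⟨i, rfl⟩
    exact hwG i
  have hs : LinearIndepOn ℂ id (insert u (Set.range w)) :=
    hw.linearIndepOn_id.id_insert fun h => hu (hspan h)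
  let b := Module.Basis.extend hs
  let B := hs.extend (Set.subset_univ _)
  have hB : insert u (Set.range w) ⊆ B := Module.Basis.subset_extend hs
  let e : B ≃ σ := b.indexEquiv (Pi.basisFun ℂ σ)
  let v := b.reindex e
  have hv : ∀ x : B, v (e x) = x := by
    intro x
    rw [Module.Basis.reindex_apply, Equiv.symm_apply_apply]
    exact Module.Basis.extend_apply_self hs x
  let t : Fin (Module.finrank ℂ G) → σ := fun i => e ⟨w i, hB (Set.mem_insert_of_mem _ ⟨i, rfl⟩)⟩
  have hvt : ∀ i, v (t i) = w i := fun i => hv _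
  have ht : Function.Injective t := by
    intro i j hij
    apply hw.injective
    rw [← hvt i, ← hvt j, hij]
  refine ⟨v, e ⟨u, hB (Set.mem_insert _ _)⟩, Finset.univ.image t, ?_, hv _, ?_, ?_, ?_⟩
  · intro h
    obtain ⟨i, _, hi⟩ := Finset.mem_image.1 h
    apply hu
    have h1 : v (t i) = u := by rw [hi]; exact hv _
    rw [← h1, hvt i]
    exact hwG i
  · intro i hi
    obtain ⟨j, _, rfl⟩ := Finset.mem_image.1 hi
    rw [hvt]
    exact hwG j
  · intro x hx i hi
    have h1 : x = ∑ j, bG.repr ⟨x, hx⟩ j • v (t j) := by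
      have h2 := congrArg (Subtype.val : G → (σ → ℂ)) (bG.sum_repr ⟨x, hx⟩)
      rw [Submodule.coe_sum] at h2
      refine h2.symm.trans (Finset.sum_congr rfl fun j _ => ?_)
      rw [hvt, Submodule.coe_smul]
    rw [h1, map_sum]
    refine Finset.sum_eq_zero fun j _ => ?_
    rw [map_smul, Module.Basis.coord_apply, Module.Basis.repr_self, Finsupp.single_eq_of_ne,
      smul_zero]
    rintro rfl
    exact hi (Finset.mem_image_of_mem _ (Finset.mem_univ _))
  · rw [Finset.card_image_of_injective _ ht, Finset.card_univ, Fintype.card_fin]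

/-- A general point of `G`. -/
theorem exists_generic {S : Type} [Finite S] (H : S → Submodule ℂ (σ → ℂ))
    (G : Submodule ℂ (σ → ℂ)) : ∃ δ ∈ G, ∀ s, ¬ G ≤ H s → δ ∉ H s := by
  classical
  by_contra hcon
  push Not at hcon
  let p : {s : S // ¬ G ≤ H s} → Submodule ℂ G := fun s => (H s.1).comap G.subtype
  have hcov : ⋃ s, (p s : Set G) = Set.univ := by
    rw [Set.eq_univ_iff_forall]
    intro x
    obtain ⟨s, hs, hx⟩ := hcon x.1 x.2
    exact Set.mem_iUnion.2 ⟨⟨s, hs⟩, hx⟩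
  obtain ⟨s, hs⟩ := Subspace.exists_eq_top_of_iUnion_eq_univ hcov
  apply s.2
  intro x hx
  have h1 : (⟨x, hx⟩ : G) ∈ p s := by
    rw [hs]
    exact Submodule.mem_top
  exact h1

end Linear

end Pool.Agent.TH187.SA
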