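import Pool.Agent.TH187.SA.Roots

set_option autoImplicit false
set_option linter.unusedSectionVars false
set_option linter.unusedVariables false

/-! # Examples of Rees flats -/

namespace Pool.Agent.TH187.SA

section Self

variable {σ : Type} [Fintype σ] [DecidableEq σ]

/-- The subspaces themselves are Rees flats. -/
theorem isReesFlat_self {S : Type} [Finite S] (H : S → Submodule ℂ (σ → ℂ)) (A : S → Prop)
    (hH : ∀ s, A s → H s ≠ ⊤) (s0 : S) (h0 : A s0) : IsReesFlat H A (H s0) := by
  obtain ⟨u, _, hu⟩ := exists_generic H ⊤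
  exact ⟨⟨s0, h0, le_refl _⟩, u, fun s hs _ => hu s fun h => hH s hs (top_le_iff.1 h),
    fun v hv => hv s0 h0 (le_refl _)⟩

end Self

/-- The configurations `x` of `n` points in `ℂ ^ m` for which the points with the index in `J`
coincide. -/
def diag (n m : ℕ) (J : Finset (Fin n)) : Submodule ℂ (Fin n × Fin m → ℂ) where
  carrier := {x | ∀ i ∈ J, ∀ j ∈ J, ∀ k, x (i, k) = x (j, k)}
  add_mem' := by
    intro x y hx hy i hi j hj k
    rw [Pi.add_apply, Pi.add_apply, hx i hi j hj k, hy i hi j hj k]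
  zero_mem' := by
    intro i _ j _ k
    rfl
  smul_mem' := by
    intro r x hx i hi j hj k
    rw [Pi.smul_apply, Pi.smul_apply, hx i hi j hj k]

/-- The linear forms `x (i, k) - x (j, k)`, `k < m`, for a pair `i < j`. -/
def pairForms (n m : ℕ) (p : {p : Fin n × Fin n // p.1 < p.2}) (k : Fin m) :
    Fin n × Fin m → ℂ :=
  Pi.single (p.1.1, k) 1 - Pi.single (p.1.2, k) 1

theorem mem_pair (n m : ℕ) (p : {p : Fin n × Fin n // p.1 < p.2}) (x : Fin n × Fin m → ℂ) :
    x ∈ zeros (pairForms n m p) ↔ ∀ k, x (p.1.1, k) = x (p.1.2, k) := by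
  rw [mem_zeros]
  refine forall_congr' fun k => ?_
  rw [pairForms, sub_dotProduct, single_dotProduct, single_dotProduct, one_mul, one_mul,
    sub_eq_zero]

theorem zeros_pair (n m : ℕ) (p : {p : Fin n × Fin n // p.1 < p.2}) :
    zeros (pairForms n m p) = diag n m {p.1.1, p.1.2} := by
  ext x
  rw [mem_pair]
  constructor
  · intro h i hi j hj k
    rw [Finset.mem_insert, Finset.mem_singleton] at hi hj
    rcases hi with rfl | rfl <;> rcases hj with rfl | rfl
    · rfl
    · exact h k
    · exact (h k).symm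
    · rfl
  · intro h k
    exact h _ (by simp) _ (by simp) k

theorem diag_le_pair (n m : ℕ) (hm : 0 < m) (J : Finset (Fin n))
    (p : {p : Fin n × Fin n // p.1 < p.2}) :
    diag n m J ≤ zeros (pairForms n m p) ↔ p.1.1 ∈ J ∧ p.1.2 ∈ J := by
  have hne : p.1.1 ≠ p.1.2 := ne_of_lt p.2
  constructor
  · intro h
    constructor
    · by_contra hcon
      have h1 : (Pi.single (p.1.1, ⟨0, hm⟩) 1 : Fin n × Fin m → ℂ) ∈ diag n m J := by
        intro i hi j hj k
        rw [Pi.single_eq_of_ne, Pi.single_eq_of_ne]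
        · rintro h'
          exact hcon ((Prod.mk.inj h').1 ▸ hj)
        · rintro h'
          exact hcon ((Prod.mk.inj h').1 ▸ hi)
      have h2 := (mem_pair n m p _).1 (h h1) ⟨0, hm⟩
      rw [Pi.single_eq_same, Pi.single_eq_of_ne] at h2
      · exact one_ne_zero h2
      · intro h'
        exact hne (Prod.mk.inj h').1.symm
    · by_contra hcon
      have h1 : (Pi.single (p.1.2, ⟨0, hm⟩) 1 : Fin n × Fin m → ℂ) ∈ diag n m J := by
        intro i hi j hj k
        rw [Pi.single_eq_of_ne, Pi.single_eq_of_ne]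
        · rintro h'
          exact hcon ((Prod.mk.inj h').1 ▸ hj)
        · rintro h'
          exact hcon ((Prod.mk.inj h').1 ▸ hi)
      have h2 := (mem_pair n m p _).1 (h h1) ⟨0, hm⟩
      rw [Pi.single_eq_same, Pi.single_eq_of_ne] at h2
      · exact one_ne_zero h2.symm
      · intro h'
        exact hne (Prod.mk.inj h').1
  · rintro ⟨h1, h2⟩ x hx
    rw [mem_pair]
    intro k
    exact hx _ h1 _ h2 k

/-- **The diagonals are Rees flats.** Let `m ≥ 2`. Every diagonal of the configurations of `n`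
points in `ℂ ^ m` is a Rees flat of the diagonals which belong to the pairs. -/
theorem isReesFlat_diag (n m : ℕ) (hm : 2 ≤ m) (A : {p : Fin n × Fin n // p.1 < p.2} → Prop)
    (J : Finset (Fin n)) (hJ : 2 ≤ J.card) (hA : ∀ p, p.1.1 ∈ J → p.1.2 ∈ J → A p) :
    IsReesFlat (fun p => zeros (pairForms n m p)) A (diag n m J) := by
  have hcast : ∀ {i j : Fin n}, i ≠ j → ((i : ℕ) : ℂ) ≠ ((j : ℕ) : ℂ) := by
    intro i j hij h
    exact hij (Fin.ext (by exact_mod_cast h))
  obtain ⟨i0, hi0, i1, hi1, hne⟩ := Finset.one_lt_card.1 hJ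
  have hmem : ∃ s, A s ∧ diag n m J ≤ zeros (pairForms n m s) := by
    rcases lt_or_gt_of_ne hne with h | h
    · exact ⟨⟨(i0, i1), h⟩, hA _ hi0 hi1, (diag_le_pair n m (by omega) J _).2 ⟨hi0, hi1⟩⟩
    · exact ⟨⟨(i1, i0), h⟩, hA _ hi1 hi0, (diag_le_pair n m (by omega) J _).2 ⟨hi1, hi0⟩⟩
  refine ⟨hmem, fun q => ((q.1 : ℕ) : ℂ) ^ ((q.2 : ℕ) + 1), fun p _ _ hp => ?_, fun v hv => ?_⟩
  · have h1 := (mem_pair n m p _).1 hp ⟨0, by omega⟩
    simp only [zero_add, pow_one] at h1
    exact hcast (ne_of_lt p.2) h1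
  · set u : Fin n × Fin m → ℂ := fun q => ((q.1 : ℕ) : ℂ) ^ ((q.2 : ℕ) + 1) with hu
    have hpair : ∀ i ∈ J, ∀ j ∈ J, i < j →
        ∃ r : ℂ, ∀ k, v (i, k) - v (j, k) = r * (u (i, k) - u (j, k)) := by
      intro i hi j hj hij
      obtain ⟨x, hx, y, hy, hxy⟩ := Submodule.mem_sup.1
        (hv ⟨(i, j), hij⟩ (hA _ hi hj) ((diag_le_pair n m (by omega) J _).2 ⟨hi, hj⟩))
      obtain ⟨r, rfl⟩ := Submodule.mem_span_singleton.1 hy
      refine ⟨r, fun k => ?_⟩
      have h1 := (mem_pair n m _ _).1 hx k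
      simp only at h1
      rw [← hxy]
      simp only [Pi.add_apply, Pi.smul_apply, smul_eq_mul]
      rw [h1]
      ring
    have hpair' : ∀ i ∈ J, ∀ j ∈ J, i ≠ j →
        ∃ r : ℂ, ∀ k, v (i, k) - v (j, k) = r * (u (i, k) - u (j, k)) := by
      intro i hi j hj hij
      rcases lt_or_gt_of_ne hij with h | h
      · exact hpair i hi j hj h
      · obtain ⟨r, hr⟩ := hpair j hj i hi h
        refine ⟨r, fun k => ?_⟩
        linear_combination - hr k
    obtain ⟨r, hr⟩ := hpair' i0 hi0 i1 hi1 hne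
    have hall : ∀ j ∈ J, ∀ k, v (i0, k) - v (j, k) = r * (u (i0, k) - u (j, k)) := by
      intro j hj
      by_cases h0 : j = i0
      · subst h0
        intro k
        rw [sub_self, sub_self, mul_zero]
      by_cases h1 : j = i1
      · subst h1
        exact hr
      obtain ⟨r1, hr1⟩ := hpair' i1 hi1 j hj (Ne.symm h1)
      obtain ⟨r2, hr2⟩ := hpair' i0 hi0 j hj (Ne.symm h0)
      have e0 := hr ⟨0, by omega⟩
      have e1 := hr ⟨1, by omega⟩
      have f0 := hr1 ⟨0, by omega⟩
      have f1 := hr1 ⟨1, by omega⟩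
      have g0 := hr2 ⟨0, by omega⟩
      have g1 := hr2 ⟨1, by omega⟩
      simp only [hu, zero_add, pow_one] at e0 e1 f0 f1 g0 g1
      have k1 : (((i0 : ℕ) : ℂ) - ((i1 : ℕ) : ℂ)) * (((i0 : ℕ) : ℂ) - ((j : ℕ) : ℂ)) * (r - r2)
          = 0 := by
        linear_combination (-1 : ℂ) * e1 - f1 + g1
          + (((i1 : ℕ) : ℂ) + ((j : ℕ) : ℂ)) * (e0 + f0 - g0)
      have k2 : r = r2 := by
        rcases mul_eq_zero.1 k1 with h | h
        · rcases mul_eq_zero.1 h with h | h
          · exact absurd (sub_eq_zero.1 h) (hcast hne)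
          · exact absurd (sub_eq_zero.1 h) (hcast (Ne.symm h0))
        · exact sub_eq_zero.1 h
      rw [k2]
      exact hr2
    refine Submodule.mem_sup.2 ⟨v - r • u, fun i hi j hj k => ?_, r • u,
      Submodule.smul_mem _ _ (Submodule.mem_span_singleton_self u), sub_add_cancel _ _⟩
    simp only [Pi.sub_apply, Pi.smul_apply, smul_eq_mul]
    linear_combination hall j hj k - hall i hi k

/-- the class of an index, with all the elements of `J` identified -/
def cls {n : ℕ} (J : Finset (Fin n)) (i : Fin n) : Option {i : Fin n // i ∉ J} :=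
  if h : i ∈ J then none else some ⟨i, h⟩

theorem finrank_diag (n m : ℕ) (J : Finset (Fin n)) (hJ : J.Nonempty) :
    Module.finrank ℂ (diag n m J) = (n - J.card + 1) * m := by
  classical
  let g : Fin n × Fin m → Option {i : Fin n // i ∉ J} × Fin m := fun q => (cls J q.1, q.2)
  have hg : Function.Surjective g := by
    rintro ⟨o, k⟩
    rcases o with _ | ⟨i, hi⟩
    · obtain ⟨i, hi⟩ := hJ
      exact ⟨(i, k), by simp only [g, cls, dif_pos hi]⟩
    · exact ⟨(i, k), by simp only [g, cls, dif_neg hi]⟩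
  have hinj := LinearMap.funLeft_injective_of_surjective ℂ ℂ g hg
  have hrange : LinearMap.range (LinearMap.funLeft ℂ ℂ g) = diag n m J := by
    ext x
    constructor
    · rintro ⟨y, rfl⟩ i hi j hj k
      simp only [LinearMap.funLeft_apply, g, cls, dif_pos hi, dif_pos hj]
    · intro hx
      obtain ⟨i0, hi0⟩ := hJ
      refine ⟨fun q => match q.1 with
        | none => x (i0, q.2)
        | some i => x (i.1, q.2), ?_⟩
      funext ⟨i, k⟩
      rw [LinearMap.funLeft_apply]
      by_cases hi : i ∈ J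
      · simp only [g, cls, dif_pos hi]
        exact hx i0 hi0 i hi k
      · simp only [g, cls, dif_neg hi]
  rw [← hrange, LinearMap.finrank_range_of_inj hinj, Module.finrank_fintype_fun_eq_card,
    Fintype.card_prod, Fintype.card_option, Fintype.card_subtype_compl, Fintype.card_fin,
    Fintype.card_fin, Fintype.card_coe]

theorem codim_diag (n m : ℕ) (J : Finset (Fin n)) (hJ : J.Nonempty) :
    Fintype.card (Fin n × Fin m) - Module.finrank ℂ (diag n m J) = m * (J.card - 1) := by
  have h1 : 1 ≤ J.card := hJ.card_pos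
  have h2 : J.card ≤ n := by
    have := Finset.card_le_univ J
    rwa [Fintype.card_fin] at this
  rw [finrank_diag n m J hJ, Fintype.card_prod, Fintype.card_fin, Fintype.card_fin]
  obtain ⟨a, ha⟩ := Nat.exists_eq_add_of_le h1
  obtain ⟨d, hd⟩ := Nat.exists_eq_add_of_le h2
  have e1 : n - J.card + 1 = d + 1 := by omega
  have e2 : J.card - 1 = a := by omega
  have e3 : 1 + a + d = n := by omega
  have e4 : n * m = (d + 1) * m + m * a := by
    calc n * m = (1 + a + d) * m := by rw [e3]
      _ = (d + 1) * m + m * a := by ring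
  rw [e1, e2, e4, Nat.add_sub_cancel_left]

end Pool.Agent.TH187.SA
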