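import Pool.Agent.TH187.SA.Cov

set_option autoImplicit false
set_option linter.unusedSectionVars false
set_option linter.unusedVariables false

/-! # Roots of Bernstein-Sato polynomials from Rees flats of subspace arrangements -/

namespace Pool.Agent.TH187.SA

open MvPowerSeries Pool.Agent.W574.SM Pool.Agent.W574.LM Pool.Agent.TH192.DT

/-- `G` is a Rees flat of the subspaces `H s`, `s ∈ A`: at least one of them contains `G`, and there
is a vector `u` which is contained in none of the `H s ⊇ G`, `s ∈ A`, such that the intersection of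
the subspaces `H s + ℂ u`, over the `s ∈ A` with `G ⊆ H s`, is contained in `G + ℂ u`. -/
def IsReesFlat {V : Type} [AddCommGroup V] [Module ℂ V] {S : Type} (H : S → Submodule ℂ V)
    (A : S → Prop) (G : Submodule ℂ V) : Prop :=
  (∃ s, A s ∧ G ≤ H s) ∧ ∃ u : V, (∀ s, A s → G ≤ H s → u ∉ H s) ∧
    ∀ v : V, (∀ s, A s → G ≤ H s → v ∈ H s ⊔ Submodule.span ℂ {u}) →
      v ∈ G ⊔ Submodule.span ℂ {u}

variable {σ : Type} [Fintype σ] [DecidableEq σ]

theorem lin_add (c c' : σ → ℂ) : lin (c + c') = lin c + lin c' := by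
  rw [lin, lin, lin, ← Finset.sum_add_distrib]
  refine Finset.sum_congr rfl fun i _ => ?_
  rw [Pi.add_apply, map_add, add_mul]

theorem lin_smul (r : ℂ) (c : σ → ℂ) : lin (r • c) = r • lin c := by
  rw [lin, lin, Finset.smul_sum]
  refine Finset.sum_congr rfl fun i _ => ?_
  rw [Pi.smul_apply, smul_eq_mul, map_mul, mul_assoc, MvPolynomial.smul_eq_C_mul]

theorem lin_zero : lin (0 : σ → ℂ) = 0 := by
  rw [lin]
  refine Finset.sum_eq_zero fun i _ => ?_
  rw [Pi.zero_apply, map_zero, zero_mul]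

theorem lin_mem_span {κ : Type} (c : κ → σ → ℂ) (c' : σ → ℂ)
    (h : c' ∈ Submodule.span ℂ (Set.range c)) :
    lin c' ∈ Submodule.span ℂ (Set.range fun j => lin (c j)) := by
  induction h using Submodule.span_induction with
  | mem x hx =>
    obtain ⟨j, rfl⟩ := hx
    exact Submodule.subset_span ⟨j, rfl⟩
  | zero =>
    rw [lin_zero]
    exact Submodule.zero_mem _
  | add x y _ _ hx hy =>
    rw [lin_add]
    exact Submodule.add_mem _ hx hy
  | smul r x _ hx =>
    rw [lin_smul]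
    exact Submodule.smul_mem _ _ hx

theorem dot_span {κ : Type} (c : κ → σ → ℂ) (c' : σ → ℂ)
    (h : c' ∈ Submodule.span ℂ (Set.range c)) (x : σ → ℂ) (hx : ∀ j, c j ⬝ᵥ x = 0) :
    c' ⬝ᵥ x = 0 := by
  induction h using Submodule.span_induction with
  | mem y hy =>
    obtain ⟨j, rfl⟩ := hy
    exact hx j
  | zero => rw [zero_dotProduct]
  | add y y' _ _ hy hy' => rw [add_dotProduct, hy, hy', add_zero]
  | smul r y _ hy => rw [smul_dotProduct, hy, smul_zero]

theorem eval_lin (c x : σ → ℂ) : MvPolynomial.eval x (lin c) = c ⬝ᵥ x := by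
  rw [lin, map_sum, dotProduct]
  refine Finset.sum_congr rfl fun i _ => ?_
  rw [map_mul, MvPolynomial.eval_C, MvPolynomial.eval_X]

namespace Lc

variable (D : Lc σ)

theorem coeff_sum_X (c : σ → ℂ) (l : σ) (hl : l ≠ D.z) (hT : ∀ i ∈ D.T, c i = 0) :
    coeff (Finsupp.single l 1) (∑ i ∈ Finset.univ.filter fun i => i ∉ D.T ∧ i ≠ D.z,
      MvPowerSeries.C (c i) * X i : MvPowerSeries σ ℂ) = c l := by
  rw [map_sum]
  have h1 : ∀ i, coeff (Finsupp.single l 1) (MvPowerSeries.C (c i) * X i : MvPowerSeries σ ℂ)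
      = if i = l then c i else 0 := by
    intro i
    rw [coeff_C_mul, coeff_X]
    by_cases h : i = l
    · subst h
      rw [if_pos rfl, if_pos rfl, mul_one]
    · rw [if_neg h, if_neg, mul_zero]
      intro h'
      exact h ((Finsupp.single_left_injective one_ne_zero h').symm)
  rw [Finset.sum_congr rfl fun i _ => h1 i, Finset.sum_ite_eq']
  split_ifs with h
  · rfl
  · rw [Finset.mem_filter] at h
    have h2 : l ∈ D.T := by
      by_contra h3
      exact h ⟨Finset.mem_univ _, h3, hl⟩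
    exact (hT l h2).symm

theorem cc_sum_X (c : σ → ℂ) (A : Finset σ) :
    constantCoeff (∑ i ∈ A, MvPowerSeries.C (c i) * X i : MvPowerSeries σ ℂ) = 0 := by
  rw [map_sum]
  refine Finset.sum_eq_zero fun i _ => ?_
  rw [map_mul, constantCoeff_X, mul_zero]

theorem cc_lin (c : σ → ℂ) : constantCoeff (MvPolynomial.aeval D.xi (lin c)) = c ⬝ᵥ D.g := by
  rw [cc_aeval, eval_lin]
  congr 1
  funext t
  exact D.cc_xi t

/-- the forms of a subspace through the centre have order one -/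
theorem hasOrd_one {κ : Type} (c : κ → σ → ℂ) (hg : ∀ j, c j ⬝ᵥ D.g = 0)
    (hT : ∀ j, ∀ i ∈ D.T, c j ⬝ᵥ D.v i = 0) (j0 : κ) (hj0 : c j0 ⬝ᵥ D.v D.z ≠ 0) :
    HasOrd D.z D.xi 1 fun j => lin (c j) := by
  refine ⟨fun j => ?_, lin (c j0), Submodule.subset_span ⟨j0, rfl⟩,
    MvPowerSeries.C (c j0 ⬝ᵥ D.v D.z) + ∑ i ∈ Finset.univ.filter fun i => i ∉ D.T ∧ i ≠ D.z,
        MvPowerSeries.C (c j0 ⬝ᵥ D.v i) * X i, ?_, ?_⟩
  · rw [D.aeval_center _ (hg j) (hT j), pow_one]
    exact Dvd.intro _ rfl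
  · rw [map_add, constantCoeff_C, cc_sum_X, add_zero]
    exact hj0
  · rw [D.aeval_center _ (hg j0) (hT j0), pow_one]

/-- the forms of a subspace which does not contain the base point have order zero -/
theorem hasOrd_zero {κ : Type} (c : κ → σ → ℂ) (j0 : κ) (hj0 : c j0 ⬝ᵥ D.g ≠ 0) :
    HasOrd D.z D.xi 0 fun j => lin (c j) := by
  refine ⟨fun j => ?_, lin (c j0), Submodule.subset_span ⟨j0, rfl⟩,
    MvPolynomial.aeval D.xi (lin (c j0)), ?_, ?_⟩
  · rw [pow_zero]
    exact one_dvd _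
  · rw [cc_lin]
    exact hj0
  · rw [pow_zero, one_mul]

theorem cov_one {κ : Type} (c : κ → σ → ℂ) (hg : ∀ j, c j ⬝ᵥ D.g = 0)
    (hT : ∀ j, ∀ i ∈ D.T, c j ⬝ᵥ D.v i = 0) (c' : σ → ℂ)
    (hc' : c' ∈ Submodule.span ℂ (Set.range c)) (hz : c' ⬝ᵥ D.v D.z = 0) :
    Cov D.z D.xi 1 (fun j => lin (c j)) fun l => c' ⬝ᵥ D.v l := by
  have h0 : ∀ x : σ → ℂ, (∀ j, c j ⬝ᵥ x = 0) → c' ⬝ᵥ x = 0 := fun x hx => dot_span c c' hc' x hx
  refine ⟨lin c', lin_mem_span c c' hc', ∑ i ∈ Finset.univ.filter fun i => i ∉ D.T ∧ i ≠ D.z,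
        MvPowerSeries.C (c' ⬝ᵥ D.v i) * X i, ?_, fun l hl => ?_, ?_⟩
  · exact cc_sum_X _ _
  · exact D.coeff_sum_X (fun i => c' ⬝ᵥ D.v i) l hl fun i hi => h0 _ fun j => hT j i hi
  · rw [D.aeval_center _ (h0 _ hg) fun i hi => h0 _ fun j => hT j i hi, hz, map_zero, zero_add,
      pow_one]

end Lc

end Pool.Agent.TH187.SA
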