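import Pool.Agent.TH187.SA.Master

set_option autoImplicit false
set_option linter.unusedSectionVars false
set_option linter.unusedVariables false

/-! # Roots of Bernstein-Sato polynomials from Rees flats of subspace arrangements -/

namespace Pool.Agent.TH187.SA

open MvPowerSeries Pool.Agent.W574.SM Pool.Agent.W574.LM Pool.Agent.TH192.DT

/-- The multiplicity `∑ e s`, over the `s` with `G ⊆ H s`. -/
noncomputable def mult {V : Type} [AddCommGroup V] [Module ℂ V] {S : Type} [Fintype S]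
    (H : S → Submodule ℂ V) (e : S → ℕ) (G : Submodule ℂ V) : ℕ :=
  open Classical in ∑ s, if G ≤ H s then e s else 0

variable {σ : Type} [Fintype σ] [DecidableEq σ] {S : Type} [Fintype S] [DecidableEq S]
  {κ : S → Type} [∀ s, Fintype (κ s)]

/-- The products of linear forms, `e s` of them from the family of index `s`: generators of the
product of the powers `I(H s) ^ e s` of the ideals of the subspaces `H s = zeros (c s)`. -/
noncomputable def arrGen (c : (s : S) → κ s → σ → ℂ) (e : S → ℕ) :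
    ((p : Σ s, Fin (e s)) → κ p.1) → MvPolynomial σ ℂ :=
  prodFam fun (p : Σ s, Fin (e s)) (j : κ p.1) => lin (c p.1 j)

theorem sum_mult (c : (s : S) → κ s → σ → ℂ) (e : S → ℕ) (G : Submodule ℂ (σ → ℂ))
    [∀ s, Decidable (G ≤ zeros (c s))] :
    ∑ p : Σ s, Fin (e s), (if G ≤ zeros (c p.1) then 1 else 0)
      = mult (fun s => zeros (c s)) e G := by
  rw [Fintype.sum_sigma, mult]
  refine Finset.sum_congr rfl fun s _ => ?_
  by_cases h : G ≤ zeros (c s)
  · simp [h]
  · simp [h]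

/-- the covector `w_t` of a basis -/
theorem coord_row (v : Module.Basis σ ℂ (σ → ℂ)) (t : σ) (x : σ → ℂ) :
    (fun j => v.coord t (Pi.single j 1)) ⬝ᵥ x = v.coord t x := dual_rep _ _

theorem coord_basis (v : Module.Basis σ ℂ (σ → ℂ)) (t l : σ) :
    (fun j => v.coord t (Pi.single j 1)) ⬝ᵥ (v l) = if l = t then 1 else 0 := by
  rw [coord_row, Module.Basis.coord_apply, Module.Basis.repr_self, Finsupp.single_apply]

theorem det_basis (v : Module.Basis σ ℂ (σ → ℂ)) :
    (Matrix.of fun i j => v i j : Matrix σ σ ℂ).det ≠ 0 := by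
  have h1 : LinearIndependent ℂ (Matrix.of fun i j => v i j : Matrix σ σ ℂ).row :=
    v.linearIndependent
  have h2 := Matrix.linearIndependent_rows_iff_isUnit.1 h1
  exact ((Matrix.isUnit_iff_isUnit_det _).1 h2).ne_zero

/-- **Duality for a Rees flat.** Let `W` be a space of covectors which contains, for the `s ∈ A`
with `G ⊆ H s`, the combinations of the `c s j` which vanish at `u`. Then `W` contains all the
covectors which vanish on `G` and at `u`. -/
theorem mem_of_rees (c : (s : S) → κ s → σ → ℂ) (A : S → Prop) (G : Submodule ℂ (σ → ℂ))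
    (u : σ → ℂ) (hu : ∀ s, A s → G ≤ zeros (c s) → u ∉ zeros (c s))
    (hr : ∀ v : σ → ℂ, (∀ s, A s → G ≤ zeros (c s) →
      v ∈ zeros (c s) ⊔ Submodule.span ℂ {u}) → v ∈ G ⊔ Submodule.span ℂ {u})
    (W : Submodule ℂ (σ → ℂ))
    (hW : ∀ s, A s → G ≤ zeros (c s) → ∀ c' ∈ Submodule.span ℂ (Set.range (c s)),
      c' ⬝ᵥ u = 0 → c' ∈ W)
    (w : σ → ℂ) (hw : ∀ x ∈ G, w ⬝ᵥ x = 0) (hwu : w ⬝ᵥ u = 0) : w ∈ W := by
  by_contra hcon
  obtain ⟨v, hv, hv'⟩ := separate W w hcon
  apply hv'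
  have h0 : v ∈ G ⊔ Submodule.span ℂ {u} := by
    refine hr v fun s hs hGs => ?_
    obtain ⟨j0, hj0⟩ : ∃ j0, c s j0 ⬝ᵥ u ≠ 0 := by
      by_contra h
      push Not at h
      exact hu s hs hGs h
    refine Submodule.mem_sup.2 ⟨v - ((c s j0 ⬝ᵥ v) / (c s j0 ⬝ᵥ u)) • u, fun j => ?_,
      ((c s j0 ⬝ᵥ v) / (c s j0 ⬝ᵥ u)) • u,
      Submodule.smul_mem _ _ (Submodule.mem_span_singleton_self u), sub_add_cancel _ _⟩
    have h1 : c s j - ((c s j ⬝ᵥ u) / (c s j0 ⬝ᵥ u)) • c s j0 ∈ W := by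
      refine hW s hs hGs _ (Submodule.sub_mem _ (Submodule.subset_span ⟨j, rfl⟩)
        (Submodule.smul_mem _ _ (Submodule.subset_span ⟨j0, rfl⟩))) ?_
      rw [sub_dotProduct, smul_dotProduct, smul_eq_mul, div_mul_cancel₀ _ hj0, sub_self]
    have h2 := hv _ h1
    rw [sub_dotProduct, smul_dotProduct, smul_eq_mul] at h2
    rw [dotProduct_sub, dotProduct_smul, smul_eq_mul]
    field_simp at h2 ⊢
    linear_combination h2
  obtain ⟨x, hx, y, hy, hxy⟩ := Submodule.mem_sup.1 h0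
  obtain ⟨r, rfl⟩ := Submodule.mem_span_singleton.1 hy
  rw [← hxy, dotProduct_add, hw x hx, dotProduct_smul, hwu, smul_zero, add_zero]

/-- `F` is a family of products which has the order `N` along the chart, and which has all the
covectors of the families of index `s ∈ A`, `G ⊆ H s`. -/
structure ProdLike (c : (s : S) → κ s → σ → ℂ) (A : S → Prop) (G : Submodule ℂ (σ → ℂ))
    {ι : Type} (F : ι → MvPolynomial σ ℂ) (N : ℕ) : Prop where
  ord : ∀ (D : Lc σ) [∀ s, Decidable (G ≤ zeros (c s))],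
    (∀ s, A s → HasOrd D.z D.xi (if G ≤ zeros (c s) then 1 else 0) fun j => lin (c s j)) →
      HasOrd D.z D.xi N F
  cov : ∀ (D : Lc σ) [∀ s, Decidable (G ≤ zeros (c s))],
    (∀ s, A s → HasOrd D.z D.xi (if G ≤ zeros (c s) then 1 else 0) fun j => lin (c s j)) →
      ∀ s, A s → G ≤ zeros (c s) → ∀ ℓ : σ → ℂ, Cov D.z D.xi 1 (fun j => lin (c s j)) ℓ →
        Cov D.z D.xi N F ℓ

theorem arr_core {ι : Type} [Fintype ι] (c : (s : S) → κ s → σ → ℂ) (A : S → Prop)
    (F : ι → MvPolynomial σ ℂ) (N : ℕ) (b : Polynomial ℂ) (H0 : MvPolynomial σ ℂ)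
    (hH0 : MvPolynomial.constantCoeff H0 ≠ 0) (hb : IsLocEq H0 F b)
    (G : Submodule ℂ (σ → ℂ)) (hG : IsReesFlat (fun s => zeros (c s)) A G)
    (hF : ProdLike c A G F N) (l : ℕ) (hl : l < N) :
    b.eval (-(((Fintype.card σ - Module.finrank ℂ G : ℕ) : ℂ) + l) / N) = 0 := by
  classical
  obtain ⟨⟨s0, hA0, hs0⟩, u, hu1, hu2⟩ := hG
  have huG : u ∉ G := fun h => hu1 s0 hA0 hs0 (hs0 h)
  obtain ⟨j0, hj0⟩ : ∃ j0, c s0 j0 ⬝ᵥ u ≠ 0 := by
    by_contra h
    push Not at h
    exact hu1 s0 hA0 hs0 h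
  obtain ⟨v, z, T, hzT, hvz, hvT, hcoord, hcard⟩ := exists_adapted G u huG
  obtain ⟨δ, hδ, hgen⟩ := exists_generic (fun s => zeros (c s)) G
  obtain ⟨lam, hlam, hH⟩ := exists_scale H0 hH0 δ
  have hgG : (fun t => lam * δ t) ∈ G := G.smul_mem lam hδ
  have hgn : ∀ s, ¬ G ≤ zeros (c s) → ∃ j, c s j ⬝ᵥ (fun t => lam * δ t) ≠ 0 := by
    intro s hs
    by_contra h
    push Not at h
    apply hgen s hs
    intro j
    have h1 := h j
    have h2 : c s j ⬝ᵥ (fun t => lam * δ t) = lam * (c s j ⬝ᵥ δ) := by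
      rw [dotProduct, dotProduct, Finset.mul_sum]
      refine Finset.sum_congr rfl fun i _ => ?_
      ring
    rw [h2] at h1
    exact (mul_eq_zero.1 h1).resolve_left hlam
  let D : Lc σ := ⟨Matrix.of fun i j => v i j, det_basis v, z, T, hzT, fun t => lam * δ t⟩
  have hDz : D.v D.z = u := hvz
  have hDT : ∀ s, G ≤ zeros (c s) → ∀ j, ∀ i ∈ D.T, c s j ⬝ᵥ D.v i = 0 :=
    fun s hs j i hi => hs (hvT i hi) j
  have hDg : ∀ s, G ≤ zeros (c s) → ∀ j, c s j ⬝ᵥ D.g = 0 := fun s hs j => hs hgG j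
  have hord : ∀ s, A s →
      HasOrd D.z D.xi (if G ≤ zeros (c s) then 1 else 0) fun j => lin (c s j) := by
    intro s hs
    by_cases h : G ≤ zeros (c s)
    · rw [if_pos h]
      obtain ⟨j1, hj1⟩ : ∃ j1, c s j1 ⬝ᵥ u ≠ 0 := by
        by_contra h'
        push Not at h'
        exact hu1 s hs h h'
      exact D.hasOrd_one (c s) (hDg s h) (hDT s h) j1 (by rw [hDz]; exact hj1)
    · rw [if_neg h]
      obtain ⟨j1, hj1⟩ := hgn s h
      exact D.hasOrd_zero (c s) j1 hj1
  let W : Submodule ℂ (σ → ℂ) :=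
    { carrier := {w | Cov D.z D.xi N F fun l => w ⬝ᵥ D.v l}
      add_mem' := by
        intro w w' hw hw'
        have h := cov_add hw hw'
        have h1 : (fun l => (w + w') ⬝ᵥ D.v l)
            = (fun l => w ⬝ᵥ D.v l) + fun l => w' ⬝ᵥ D.v l := by
          funext l
          rw [Pi.add_apply, add_dotProduct]
        change Cov _ _ _ _ fun l => (w + w') ⬝ᵥ D.v l
        rw [h1]
        exact h
      zero_mem' := by
        have h1 : (fun l => (0 : σ → ℂ) ⬝ᵥ D.v l) = 0 := by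
          funext l
          rw [zero_dotProduct, Pi.zero_apply]
        change Cov _ _ _ _ fun l => (0 : σ → ℂ) ⬝ᵥ D.v l
        rw [h1]
        exact cov_zero
      smul_mem' := by
        intro r w hw
        have h := cov_smul r hw
        have h1 : (fun l => (r • w) ⬝ᵥ D.v l) = r • fun l => w ⬝ᵥ D.v l := by
          funext l
          rw [Pi.smul_apply, smul_dotProduct]
        change Cov _ _ _ _ fun l => (r • w) ⬝ᵥ D.v l
        rw [h1]
        exact h }
  have hW : ∀ s, A s → G ≤ zeros (c s) →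
      ∀ c' ∈ Submodule.span ℂ (Set.range (c s)), c' ⬝ᵥ u = 0 → c' ∈ W := by
    intro s hA hs c' hc' hcu
    exact hF.cov D hord s hA hs _
      (D.cov_one (c s) (hDg s hs) (hDT s hs) c' hc' (by rw [hDz]; exact hcu))
  have hdual : ∀ t, t ∉ T → t ≠ z → (fun j => v.coord t (Pi.single j 1)) ∈ W := by
    intro t ht htz
    refine mem_of_rees c A G u hu1 hu2 W hW _ (fun x hx => ?_) ?_
    · rw [coord_row]
      exact hcoord x hx t ht
    · rw [← hvz, coord_basis, if_neg htz.symm]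
  have hTc : T.card + 1 ≤ Fintype.card σ := by
    have h1 := Finset.card_le_univ (insert z T)
    rwa [Finset.card_insert_of_notMem hzT] at h1
  obtain ⟨U0, hU0, hJ⟩ := D.jacobian
  have hxi0 : ∀ j, constantCoeff (D.xi j) = lam * δ j := D.cc_xi
  have hHc : constantCoeff (MvPolynomial.aeval D.xi H0) ≠ 0 := by
    rw [cc_aeval, funext hxi0]
    exact hH
  have key := rees_span _ b H0 hb D.z D.xi hHc (Fintype.card σ - 1 - D.T.card)
    N l hl U0
    ((MvPowerSeries.C (c s0 j0 ⬝ᵥ D.v D.z) + ∑ i ∈ Finset.univ.filter fun i => i ∉ D.T ∧ i ≠ D.z,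
        MvPowerSeries.C (c s0 j0 ⬝ᵥ D.v i) * X i) ^ l) hU0 ?_ hJ (hF.ord D hord)
    (lin (c s0 j0) ^ l) ?_ ?_
  · have h1 : ((Fintype.card σ - 1 - D.T.card : ℕ) : ℂ) + 1
        = ((Fintype.card σ - Module.finrank ℂ G : ℕ) : ℂ) := by
      rw [← hcard]
      have h2 : Fintype.card σ - 1 - D.T.card + 1 = Fintype.card σ - T.card := by
        change Fintype.card σ - 1 - T.card + 1 = Fintype.card σ - T.card
        omega
      rw [← h2]
      push_cast
      ring
    rw [← h1]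
    exact key
  · rw [map_pow, map_add, constantCoeff_C, Lc.cc_sum_X, add_zero, hDz]
    exact pow_ne_zero _ hj0
  · rw [map_pow, D.aeval_center _ (hDg s0 hs0 j0) (hDT s0 hs0 j0), mul_pow]
  · intro t htz
    by_cases ht : t ∈ T
    · left
      refine ⟨lin (fun j => v.coord t (Pi.single j 1)) -
        MvPolynomial.C ((fun j => v.coord t (Pi.single j 1)) ⬝ᵥ D.g), ?_⟩
      have h1 : (MvPolynomial.aeval D.xi) (MvPolynomial.C
          ((fun j => v.coord t (Pi.single j 1)) ⬝ᵥ D.g) : MvPolynomial σ ℂ)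
          = MvPowerSeries.C ((fun j => v.coord t (Pi.single j 1)) ⬝ᵥ D.g) :=
        MvPolynomial.aeval_C _ _
      have h2 : ∑ i, MvPowerSeries.C ((fun j => v.coord t (Pi.single j 1)) ⬝ᵥ D.v i) * D.eta i
          = D.eta t := by
        rw [Finset.sum_eq_single t]
        · have h3 : (fun j => v.coord t (Pi.single j 1)) ⬝ᵥ D.v t = 1 :=
            (coord_basis v t t).trans (if_pos rfl)
          rw [h3, map_one, one_mul]
        · intro i _ hi
          have h3 : (fun j => v.coord t (Pi.single j 1)) ⬝ᵥ D.v i = 0 :=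
            (coord_basis v t i).trans (if_neg hi)
          rw [h3, map_zero, zero_mul]
        · intro h
          exact absurd (Finset.mem_univ _) h
      rw [map_sub, D.aeval_lin, h1, h2, add_sub_cancel_left, D.eta_T ht]
      refine ⟨constantCoeff_X t, ?_, fun l _ hlt => ?_⟩
      · rw [coeff_X, if_pos rfl]
        exact one_ne_zero
      · rw [coeff_X, if_neg]
        intro h
        exact hlt (Finsupp.single_left_injective one_ne_zero h)
    · right
      have h1 := hdual t ht htz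
      refine gives_of_cov (ℓ := fun l => (fun j => v.coord t (Pi.single j 1)) ⬝ᵥ D.v l) h1 t htz
        ?_ ?_
      · have h3 : (fun j => v.coord t (Pi.single j 1)) ⬝ᵥ D.v t = 1 :=
          (coord_basis v t t).trans (if_pos rfl)
        rw [h3]
        exact one_ne_zero
      · intro l _ hlt
        exact (coord_basis v t l).trans (if_neg hlt)


theorem prodLike_arrGen (c : (s : S) → κ s → σ → ℂ) (e : S → ℕ) (A : S → Prop)
    (hA : ∀ s, e s ≠ 0 → A s) (G : Submodule ℂ (σ → ℂ)) (D : Lc σ)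
    [∀ s, Decidable (G ≤ zeros (c s))]
    (h : ∀ s, A s → HasOrd D.z D.xi (if G ≤ zeros (c s) then 1 else 0) fun j => lin (c s j)) :
    HasOrd D.z D.xi (mult (fun s => zeros (c s)) e G) (arrGen c e) ∧
      ∀ s, e s ≠ 0 → G ≤ zeros (c s) → ∀ ℓ : σ → ℂ,
        Cov D.z D.xi 1 (fun j => lin (c s j)) ℓ →
        Cov D.z D.xi (mult (fun s => zeros (c s)) e G) (arrGen c e) ℓ := by
  have h1 : ∀ p : Σ s, Fin (e s),
      HasOrd D.z D.xi (if G ≤ zeros (c p.1) then 1 else 0) fun j => lin (c p.1 j) :=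
    fun p => h p.1 (hA _ fun h => by have := p.2.2; omega)
  constructor
  · rw [← sum_mult]
    exact hasOrd_prod D.z D.xi (fun p : Σ s, Fin (e s) => if G ≤ zeros (c p.1) then 1 else 0)
      (fun (p : Σ s, Fin (e s)) (j : κ p.1) => lin (c p.1 j)) h1
  · intro s hs hGs ℓ hℓ
    rw [← sum_mult]
    refine cov_prod D.z D.xi
      (fun p : Σ s, Fin (e s) => if G ≤ zeros (c p.1) then 1 else 0)
      (fun (p : Σ s, Fin (e s)) (j : κ p.1) => lin (c p.1 j)) h1
      ⟨s, ⟨0, Nat.pos_of_ne_zero hs⟩⟩ _ ?_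
    simp only
    rw [if_pos hGs]
    exact hℓ

theorem prodLike_one (c : (s : S) → κ s → σ → ℂ) (e : S → ℕ) (G : Submodule ℂ (σ → ℂ)) :
    ProdLike c (fun s => e s ≠ 0) G (arrGen c e) (mult (fun s => zeros (c s)) e G) where
  ord := fun D _ h => (prodLike_arrGen c e _ (fun _ h => h) G D h).1
  cov := fun D _ h s hs hGs ℓ hℓ =>
    (prodLike_arrGen c e _ (fun _ h => h) G D h).2 s hs hGs ℓ hℓ

theorem prodLike_prod {Q : Type} [Fintype Q] [DecidableEq Q] (c : (s : S) → κ s → σ → ℂ)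
    (e : Q → S → ℕ) (G : Submodule ℂ (σ → ℂ)) :
    ProdLike c (fun s => ∃ q, e q s ≠ 0) G (prodFam fun q : Q => arrGen c (e q))
      (∑ q, mult (fun s => zeros (c s)) (e q) G) where
  ord := fun D _ h => hasOrd_prod D.z D.xi (fun q => mult (fun s => zeros (c s)) (e q) G)
    (fun q => arrGen c (e q)) fun q => (prodLike_arrGen c (e q) _ (fun _ h => ⟨q, h⟩) G D h).1
  cov := by
    rintro D _ h s ⟨q, hq⟩ hGs ℓ hℓ
    exact cov_prod D.z D.xi (fun q => mult (fun s => zeros (c s)) (e q) G)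
      (fun q => arrGen c (e q))
      (fun q => (prodLike_arrGen c (e q) _ (fun _ h => ⟨q, h⟩) G D h).1) q _
      ((prodLike_arrGen c (e q) _ (fun _ h => ⟨q, h⟩) G D h).2 s hq hGs ℓ hℓ)

/-- the roots for the product of the powers of the ideals of the subspaces -/
theorem arr_roots_one (c : (s : S) → κ s → σ → ℂ) (e : S → ℕ) (b : Polynomial ℂ)
    (H0 : MvPolynomial σ ℂ) (hH0 : MvPolynomial.constantCoeff H0 ≠ 0)
    (hb : IsLocEq H0 (arrGen c e) b) (G : Submodule ℂ (σ → ℂ))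
    (hG : IsReesFlat (fun s => zeros (c s)) (fun s => e s ≠ 0) G)
    (l : ℕ) (hl : l < mult (fun s => zeros (c s)) e G) :
    b.eval (-(((Fintype.card σ - Module.finrank ℂ G : ℕ) : ℂ) + l) /
      (mult (fun s => zeros (c s)) e G : ℕ)) = 0 :=
  arr_core c _ _ _ b H0 hH0 hb G hG (prodLike_one c e G) l hl

/-- the roots for several products -/
theorem arr_roots {Q : Type} [Fintype Q] [DecidableEq Q] (c : (s : S) → κ s → σ → ℂ)
    (e : Q → S → ℕ) (b : Polynomial ℂ) (H0 : MvPolynomial σ ℂ)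
    (hH0 : MvPolynomial.constantCoeff H0 ≠ 0)
    (hb : IsLocEq H0 (prodFam fun q : Q => arrGen c (e q)) b)
    (G : Submodule ℂ (σ → ℂ))
    (hG : IsReesFlat (fun s => zeros (c s)) (fun s => ∃ q, e q s ≠ 0) G)
    (l : ℕ) (hl : l < ∑ q, mult (fun s => zeros (c s)) (e q) G) :
    b.eval (-(((Fintype.card σ - Module.finrank ℂ G : ℕ) : ℂ) + l) /
      (∑ q, mult (fun s => zeros (c s)) (e q) G : ℕ)) = 0 :=
  arr_core c _ _ _ b H0 hH0 hb G hG (prodLike_prod c e G) l hl

end Pool.Agent.TH187.SA
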